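import Mathlib

/-!
Uniform bound for the quotient of Gamma functions:
`|Γ(z+y)| ≤ 2 |z|^y |Γ(z)|` for `Re z ≥ 1`, `0 ≤ y ≤ 1`, and for `Γ_ℝ`.
-/

open Complex Filter Topology

namespace H855R2.SF

theorem norm_add_sq (w : ℂ) (y : ℝ) : ‖w + y‖ ^ 2 = ‖w‖ ^ 2 + 2 * y * w.re + y ^ 2 := by
  rw [← normSq_eq_norm_sq, ← normSq_eq_norm_sq, normSq_apply, normSq_apply]
  simp
  ring

/-- one factor -/
theorem factor_le {w : ℂ} {y : ℝ} (hy0 : 0 ≤ y) (hy1 : y ≤ 1) (hw : 0 < w.re) :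
    ‖w‖ / ‖w + y‖ ≤ (‖w‖ / ‖w + 1‖) ^ y * Real.exp (1 / (8 * w.re ^ 2)) := by
  have hwn : 0 < ‖w‖ := lt_of_lt_of_le hw (re_le_norm w)
  have hwy : w.re ≤ ‖w + y‖ := by
    have := re_le_norm (w + y)
    simp at this
    linarith
  have hwy0 : 0 < ‖w + y‖ := lt_of_lt_of_le hw hwy
  have hw1 : w.re ≤ ‖w + 1‖ := by
    have := re_le_norm (w + 1)
    simp at this
    linarith
  have hw10 : 0 < ‖w + 1‖ := lt_of_lt_of_le hw hw1
  have e1 := norm_add_sq w y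
  have e2 := norm_add_sq w 1
  simp only [ofReal_one, mul_one, one_pow] at e2
  -- weighted AM-GM
  have hag : (‖w + 1‖ ^ 2) ^ y * (‖w‖ ^ 2) ^ (1 - y) ≤ y * ‖w + 1‖ ^ 2 + (1 - y) * ‖w‖ ^ 2 :=
    Real.geom_mean_le_arith_mean2_weighted hy0 (by linarith) (by positivity) (by positivity)
      (by ring)
  have h3 : y * ‖w + 1‖ ^ 2 + (1 - y) * ‖w‖ ^ 2 = ‖w + y‖ ^ 2 + (y - y ^ 2) := by
    rw [e1, e2]; ring
  have h4 : y - y ^ 2 ≤ 1 / 4 := by nlinarith [sq_nonneg (y - 1 / 2)]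
  have h5 : ‖w + y‖ ^ 2 + (y - y ^ 2) ≤ ‖w + y‖ ^ 2 * Real.exp (1 / (4 * w.re ^ 2)) := by
    have h6 := Real.add_one_le_exp (1 / (4 * w.re ^ 2))
    have h7 : w.re ^ 2 ≤ ‖w + y‖ ^ 2 := by
      apply pow_le_pow_left₀ hw.le hwy
    calc ‖w + y‖ ^ 2 + (y - y ^ 2) ≤ ‖w + y‖ ^ 2 + ‖w + y‖ ^ 2 * (1 / (4 * w.re ^ 2)) := by
          have : 1 / 4 ≤ ‖w + y‖ ^ 2 * (1 / (4 * w.re ^ 2)) := by
            rw [mul_one_div, le_div_iff₀ (by positivity)]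
            linarith
          linarith
      _ = ‖w + y‖ ^ 2 * (1 / (4 * w.re ^ 2) + 1) := by ring
      _ ≤ _ := mul_le_mul_of_nonneg_left h6 (by positivity)
  have h8 : (‖w + 1‖ ^ 2) ^ y * (‖w‖ ^ 2) ^ (1 - y) ≤ ‖w + y‖ ^ 2 * Real.exp (1 / (4 * w.re ^ 2)) := by
    rw [h3] at hag
    exact hag.trans h5
  have e5 : (‖w + 1‖ ^ y * ‖w‖ ^ (1 - y)) ^ 2 = (‖w + 1‖ ^ 2) ^ y * (‖w‖ ^ 2) ^ (1 - y) := by
    rw [mul_pow, ← Real.rpow_natCast, ← Real.rpow_natCast, ← Real.rpow_natCast (‖w + 1‖),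
      ← Real.rpow_natCast (‖w‖), ← Real.rpow_mul (norm_nonneg _), ← Real.rpow_mul (norm_nonneg _),
      ← Real.rpow_mul (norm_nonneg _), ← Real.rpow_mul (norm_nonneg _)]
    congr 2 <;> ring
  have e6 : (‖w + y‖ * Real.exp (1 / (8 * w.re ^ 2))) ^ 2 = ‖w + y‖ ^ 2 * Real.exp (1 / (4 * w.re ^ 2)) := by
    rw [mul_pow, ← Real.exp_nat_mul]
    congr 2
    field_simp
    norm_num
  have h9 : ‖w + 1‖ ^ y * ‖w‖ ^ (1 - y) ≤ ‖w + y‖ * Real.exp (1 / (8 * w.re ^ 2)) := by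
    apply le_of_sq_le_sq _ (by positivity)
    rw [e5, e6]
    exact h8
  rw [Real.div_rpow hwn.le hw10.le, div_mul_eq_mul_div, div_le_div_iff₀ hwy0 (by positivity)]
  have h10 : ‖w‖ ^ y * ‖w‖ ^ (1 - y) = ‖w‖ := by
    rw [← Real.rpow_add hwn]; simp
  calc ‖w‖ * ‖w + 1‖ ^ y = ‖w‖ ^ y * (‖w + 1‖ ^ y * ‖w‖ ^ (1 - y)) := by
        nth_rewrite 1 [← h10]; ring
    _ ≤ ‖w‖ ^ y * (‖w + y‖ * Real.exp (1 / (8 * w.re ^ 2))) :=
        mul_le_mul_of_nonneg_left h9 (by positivity)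
    _ = _ := by ring

theorem sum_inv_sq (n : ℕ) :
    ∑ j ∈ Finset.range (n + 1), 1 / (((j : ℝ) + 1) ^ 2) ≤ 2 - 1 / ((n : ℝ) + 1) := by
  induction n with
  | zero => norm_num
  | succ k ih =>
    rw [Finset.sum_range_succ]
    push_cast
    have h1 : 1 / (((k : ℝ) + 1 + 1) ^ 2) ≤ 1 / ((k:ℝ) + 1) - 1 / ((k:ℝ) + 1 + 1) := by
      rw [div_sub_div _ _ (by positivity) (by positivity), div_le_div_iff₀ (by positivity) (by positivity)]
      nlinarith [Nat.cast_nonneg (α := ℝ) k]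
    linarith

theorem prod_le {z : ℂ} {y : ℝ} (hy0 : 0 ≤ y) (hy1 : y ≤ 1) (hz : 1 ≤ z.re) (n : ℕ) :
    ∏ j ∈ Finset.range (n + 1), (‖z + j‖ / ‖z + j + y‖) ≤
      (‖z‖ / ‖z + n + 1‖) ^ y * Real.exp (1 / 4) := by
  have hre : ∀ j : ℕ, (j : ℝ) + 1 ≤ (z + j).re := by
    intro j; simp; linarith
  have h1 : ∏ j ∈ Finset.range (n + 1), (‖z + j‖ / ‖z + j + y‖) ≤
      ∏ j ∈ Finset.range (n + 1), ((‖z + j‖ / ‖z + j + 1‖) ^ y *
        Real.exp (1 / (8 * (((j : ℝ) + 1) ^ 2)))) := by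
    apply Finset.prod_le_prod
    · intro j _
      positivity
    · intro j _
      have hj : 0 < (z + j).re := by linarith [hre j, Nat.cast_nonneg (α := ℝ) j]
      refine (factor_le hy0 hy1 hj).trans ?_
      apply mul_le_mul_of_nonneg_left _ (by positivity)
      apply Real.exp_le_exp.2
      apply one_div_le_one_div_of_le (by positivity)
      apply mul_le_mul_of_nonneg_left _ (by norm_num)
      exact pow_le_pow_left₀ (by positivity) (hre j) 2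
  refine h1.trans ?_
  rw [Finset.prod_mul_distrib, ← Real.exp_sum]
  have h2 : ∏ j ∈ Finset.range (n + 1), (‖z + j‖ / ‖z + j + 1‖) ^ y = (‖z‖ / ‖z + n + 1‖) ^ y := by
    have h3 : ∀ k : ℕ, ∏ j ∈ Finset.range k, (‖z + j‖ / ‖z + j + 1‖) ^ y = (‖z‖ / ‖z + k‖) ^ y := by
      intro k
      induction k with
      | zero =>
        have : 0 < ‖z‖ := lt_of_lt_of_le (by linarith) (re_le_norm z)
        simp [div_self this.ne']
      | succ k ih =>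
        rw [Finset.prod_range_succ, ih, ← Real.mul_rpow (by positivity) (by positivity)]
        congr 1
        have : 0 < ‖z + k‖ := lt_of_lt_of_le (by linarith [hre k, Nat.cast_nonneg (α := ℝ) k]) (re_le_norm _)
        push_cast
        rw [← add_assoc]
        field_simp
    rw [h3]
    push_cast
    rw [← add_assoc]
  rw [h2]
  apply mul_le_mul_of_nonneg_left _ (by positivity)
  apply Real.exp_le_exp.2
  have h4 : ∑ j ∈ Finset.range (n + 1), 1 / (8 * (((j : ℝ) + 1) ^ 2)) =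
      (1 / 8) * ∑ j ∈ Finset.range (n + 1), 1 / (((j : ℝ) + 1) ^ 2) := by
    rw [Finset.mul_sum]
    apply Finset.sum_congr rfl
    intro j _
    rw [one_div_mul_one_div]
  rw [h4]
  have h5 := sum_inv_sq n
  have : 0 < 1 / ((n:ℝ) + 1) := by positivity
  linarith

theorem gamma_quot {z : ℂ} {y : ℝ} (hy0 : 0 ≤ y) (hy1 : y ≤ 1) (hz : 1 ≤ z.re) :
    ‖Complex.Gamma (z + y)‖ ≤ 2 * ‖z‖ ^ y * ‖Complex.Gamma z‖ := by
  have h1 := (Complex.GammaSeq_tendsto_Gamma (z + y)).norm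
  have h2 := ((Complex.GammaSeq_tendsto_Gamma z).norm).const_mul (2 * ‖z‖ ^ y)
  refine le_of_tendsto_of_tendsto h1 h2 ?_
  filter_upwards [eventually_ge_atTop 1] with n hn
  have hn0 : (0:ℝ) < n := by exact_mod_cast hn
  have hre : ∀ j : ℕ, (j : ℝ) + 1 ≤ (z + j).re := by
    intro j; simp; linarith
  have hp : ∀ j : ℕ, 0 < ‖z + j‖ := fun j =>
    lt_of_lt_of_le (by linarith [hre j, Nat.cast_nonneg (α := ℝ) j]) (re_le_norm _)
  have hp2 : ∀ j : ℕ, 0 < ‖z + j + y‖ := fun j => by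
    have := re_le_norm (z + j + y)
    have e : (z + j + y).re = (z + j).re + y := by simp
    rw [e] at this
    linarith [hre j, Nat.cast_nonneg (α := ℝ) j]
  unfold Complex.GammaSeq
  rw [norm_div, norm_div, norm_mul, norm_mul, norm_prod, norm_prod,
    Complex.norm_natCast_cpow_of_pos hn, Complex.norm_natCast_cpow_of_pos hn]
  have e1 : (z + (y:ℂ)).re = z.re + y := by simp
  rw [e1, Real.rpow_add hn0]
  have e2 : ∏ j ∈ Finset.range (n + 1), ‖z + y + j‖ = ∏ j ∈ Finset.range (n + 1), ‖z + j + y‖ := by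
    apply Finset.prod_congr rfl
    intro j _
    congr 1
    ring
  rw [e2]
  have hP := prod_le hy0 hy1 hz n
  rw [Finset.prod_div_distrib] at hP
  have hD1 : 0 < ∏ j ∈ Finset.range (n + 1), ‖z + j + y‖ := Finset.prod_pos fun j _ => hp2 j
  have hD2 : 0 < ∏ j ∈ Finset.range (n + 1), ‖z + j‖ := Finset.prod_pos fun j _ => hp j
  have hzn : (n:ℝ) ≤ ‖z + n + 1‖ := by
    have := re_le_norm (z + n + 1)
    simp at this
    linarith
  have hzn0 : 0 < ‖z + n + 1‖ := lt_of_lt_of_le hn0 hzn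
  have h3 : (n:ℝ) ^ y * (‖z‖ / ‖z + n + 1‖) ^ y ≤ ‖z‖ ^ y := by
    rw [← Real.mul_rpow hn0.le (by positivity)]
    apply Real.rpow_le_rpow (by positivity) _ hy0
    rw [mul_div_assoc', div_le_iff₀ hzn0, mul_comm]
    exact mul_le_mul_of_nonneg_left hzn (norm_nonneg _)
  have h4 : Real.exp (1 / 4) ≤ 2 := by
    have h := Real.exp_one_lt_d9
    have h5 : Real.exp (1 / 4) ^ 4 = Real.exp 1 := by
      rw [← Real.exp_nat_mul]; norm_num
    by_contra hc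
    rw [not_le] at hc
    have h6 : (2:ℝ) ^ 4 < Real.exp (1 / 4) ^ 4 := pow_lt_pow_left₀ hc (by norm_num) (by norm_num)
    rw [h5] at h6
    norm_num at h6
    linarith
  have h5 : (n:ℝ) ^ y * ((∏ j ∈ Finset.range (n + 1), ‖z + j‖) / ∏ j ∈ Finset.range (n + 1), ‖z + j + y‖) ≤
      2 * ‖z‖ ^ y := by
    calc (n:ℝ) ^ y * ((∏ j ∈ Finset.range (n + 1), ‖z + j‖) / ∏ j ∈ Finset.range (n + 1), ‖z + j + y‖)
        ≤ (n:ℝ) ^ y * ((‖z‖ / ‖z + n + 1‖) ^ y * Real.exp (1 / 4)) :=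
          mul_le_mul_of_nonneg_left hP (by positivity)
      _ = ((n:ℝ) ^ y * (‖z‖ / ‖z + n + 1‖) ^ y) * Real.exp (1 / 4) := by ring
      _ ≤ ‖z‖ ^ y * 2 := mul_le_mul h3 h4 (by positivity) (by positivity)
      _ = _ := by ring
  have h6 : (n:ℝ) ^ z.re * (n:ℝ) ^ y * ‖(n.factorial : ℂ)‖ / ∏ j ∈ Finset.range (n + 1), ‖z + j + y‖ =
      ((n:ℝ) ^ y * ((∏ j ∈ Finset.range (n + 1), ‖z + j‖) / ∏ j ∈ Finset.range (n + 1), ‖z + j + y‖)) *
      ((n:ℝ) ^ z.re * ‖(n.factorial : ℂ)‖ / ∏ j ∈ Finset.range (n + 1), ‖z + j‖) := by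
    field_simp
  rw [h6]
  exact mul_le_mul_of_nonneg_right h5 (by positivity)

/-- the quotient of Gamma functions in the functional equation -/
theorem gammaR_quot {w : ℂ} {x : ℝ} (hx0 : 0 ≤ x) (hx1 : x ≤ 3 / 4) (hw : -x < w.re) :
    ‖Gammaℝ (w + 2 * x)‖ * ‖(Gammaℝ w)⁻¹‖ ≤ 8 * (1 + ‖w‖) ^ x := by
  have hpi := Real.pi_pos
  set z : ℂ := w / 2 with hz
  have hzre : z.re = w.re / 2 := by simp [hz]
  -- shifts
  have key : ∀ u : ℂ, -x / 2 < u.re → u ≠ 0 → ‖Complex.Gamma (u + x)‖ * ‖Complex.Gamma (u + 1)‖ ≤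
      ‖Complex.Gamma (u + 1 + x)‖ * ‖Complex.Gamma u‖ := by
    intro u hu hu0
    have hux : u + x ≠ 0 := by
      intro h
      have := congrArg re h
      simp at this
      linarith
    have e1 : Complex.Gamma (u + 1) = u * Complex.Gamma u := Complex.Gamma_add_one u hu0
    have e2 : Complex.Gamma (u + 1 + x) = (u + x) * Complex.Gamma (u + x) := by
      rw [← Complex.Gamma_add_one _ hux]
      congr 1
      ring
    rw [e1, e2, norm_mul, norm_mul]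
    have h1 : ‖u‖ ≤ ‖u + x‖ := by
      apply le_of_sq_le_sq _ (norm_nonneg _)
      rw [norm_add_sq]
      nlinarith
    have h2 : 0 ≤ ‖Complex.Gamma (u + x)‖ * ‖Complex.Gamma u‖ := by positivity
    nlinarith
  have hpx : Real.pi ^ (-x) ≤ 1 :=
    Real.rpow_le_one_of_one_le_of_nonpos (by linarith [Real.pi_gt_three]) (by linarith)
  have en : ‖Gammaℝ (w + 2 * x)‖ * ‖(Gammaℝ w)⁻¹‖ =
      Real.pi ^ (-x) * (‖Complex.Gamma (z + x)‖ * ‖Complex.Gamma z‖⁻¹) := by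
    rw [Gammaℝ_def, Gammaℝ_def, norm_mul, norm_inv, norm_mul,
      Complex.norm_cpow_eq_rpow_re_of_pos hpi, Complex.norm_cpow_eq_rpow_re_of_pos hpi]
    have e1 : (w + 2 * (x:ℂ)) / 2 = z + x := by rw [hz]; ring
    have e2 : (-(w + 2 * (x:ℂ)) / 2).re = -x + (-w / 2).re := by
      simp; ring
    rw [e1, e2, Real.rpow_add hpi, ← hz, mul_inv]
    have hne : Real.pi ^ (-w / 2).re ≠ 0 := (Real.rpow_pos_of_pos hpi _).ne'
    field_simp
  rw [en]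
  have hw0 : 0 ≤ ‖w‖ := norm_nonneg w
  rcases eq_or_ne (Complex.Gamma z) 0 with h0 | h0
  · rw [h0]; simp; positivity
  have hz0 : z ≠ 0 := by
    intro h; rw [h] at h0; exact h0 Complex.Gamma_zero
  have hz1 : z + 1 ≠ 0 := by
    intro h
    have : z = -((1:ℕ):ℂ) := by push_cast; linear_combination h
    rw [this] at h0
    exact h0 (Complex.Gamma_neg_nat_eq_zero 1)
  have hg0 : 0 < ‖Complex.Gamma z‖ := norm_pos_iff.2 h0
  have e1 : Complex.Gamma (z + 1) = z * Complex.Gamma z := Complex.Gamma_add_one z hz0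
  have e2 : Complex.Gamma (z + 1 + 1) = (z + 1) * Complex.Gamma (z + 1) := Complex.Gamma_add_one _ hz1
  have hg1 : 0 < ‖Complex.Gamma (z + 1)‖ := by
    rw [e1, norm_mul]; have := norm_pos_iff.2 hz0; positivity
  have hg2 : 0 < ‖Complex.Gamma (z + 1 + 1)‖ := by
    rw [e2, norm_mul]; have := norm_pos_iff.2 hz1; positivity
  have k1 := key z (by rw [hzre]; linarith) hz0
  have k2 := key (z + 1) (by simp; rw [hzre]; linarith) hz1
  have k3 := gamma_quot (z := z + 1 + 1) hx0 (by linarith) (by simp; rw [hzre]; linarith)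
  have q1 : ‖Complex.Gamma (z + x)‖ / ‖Complex.Gamma z‖ ≤
      ‖Complex.Gamma (z + 1 + x)‖ / ‖Complex.Gamma (z + 1)‖ := by
    rw [div_le_div_iff₀ hg0 hg1]; exact k1
  have q2 : ‖Complex.Gamma (z + 1 + x)‖ / ‖Complex.Gamma (z + 1)‖ ≤
      ‖Complex.Gamma (z + 1 + 1 + x)‖ / ‖Complex.Gamma (z + 1 + 1)‖ := by
    rw [div_le_div_iff₀ hg1 hg2]; exact k2
  have q3 : ‖Complex.Gamma (z + 1 + 1 + x)‖ / ‖Complex.Gamma (z + 1 + 1)‖ ≤ 2 * ‖z + 1 + 1‖ ^ x := by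
    rw [div_le_iff₀ hg2]; exact k3
  have h5 : ‖z + 1 + 1‖ ≤ 2 * (1 + ‖w‖) := by
    have h6 : ‖z‖ = ‖w‖ / 2 := by rw [hz, norm_div]; simp
    calc ‖z + 1 + 1‖ ≤ ‖z + 1‖ + ‖(1:ℂ)‖ := norm_add_le _ _
      _ ≤ ‖z‖ + ‖(1:ℂ)‖ + ‖(1:ℂ)‖ := by gcongr; exact norm_add_le _ _
      _ = ‖w‖ / 2 + 2 := by rw [h6, norm_one]; ring
      _ ≤ _ := by linarith
  have h7 : ‖z + 1 + 1‖ ^ x ≤ 2 * (1 + ‖w‖) ^ x := by
    calc ‖z + 1 + 1‖ ^ x ≤ (2 * (1 + ‖w‖)) ^ x := Real.rpow_le_rpow (norm_nonneg _) h5 hx0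
      _ = 2 ^ x * (1 + ‖w‖) ^ x := Real.mul_rpow (by norm_num) (by positivity)
      _ ≤ 2 ^ (1:ℝ) * (1 + ‖w‖) ^ x := by
        gcongr
        · norm_num
        · linarith
      _ = _ := by norm_num
  have hnn : 0 ≤ (1 + ‖w‖) ^ x := by positivity
  calc Real.pi ^ (-x) * (‖Complex.Gamma (z + x)‖ * ‖Complex.Gamma z‖⁻¹)
      ≤ 1 * (‖Complex.Gamma (z + x)‖ * ‖Complex.Gamma z‖⁻¹) :=
        mul_le_mul_of_nonneg_right hpx (by positivity)
    _ = ‖Complex.Gamma (z + x)‖ / ‖Complex.Gamma z‖ := by rw [one_mul, div_eq_mul_inv]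
    _ ≤ 2 * ‖z + 1 + 1‖ ^ x := q1.trans (q2.trans q3)
    _ ≤ 8 * (1 + ‖w‖) ^ x := by linarith

end H855R2.SF
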