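import Mathlib
import Pool.Agent.H855R2.SF.Gam

/-!
Families of functions with a conductor: convexity bounds, uniform in the family.
-/

open Complex Filter Topology Set

namespace H855R2.SF

/-- a family of entire functions `L i` with (local) analytic conductor `Q i t`, with the analytic
properties of L-functions used for the sampling theorem -/
structure AFam {ι : Type*} (m : ℝ) (L : ι → ℂ → ℂ) (Q : ι → ℝ → ℝ) : Prop where
  m0 : 0 ≤ m
  Q1 : ∀ i t, 1 ≤ Q i t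
  Qs : ∀ i t u, Q i (t + u) ≤ (1 + |u|) ^ m * Q i t
  diff : ∀ i, Differentiable ℂ (L i)
  order : ∀ i, ∃ A : ℝ, ∀ s : ℂ, -1 / 4 ≤ s.re → s.re ≤ 5 / 4 →
    ‖L i s‖ ≤ Real.exp (A * (1 + |s.im|) ^ A)
  right : ∀ δ : ℝ, 0 < δ → ∃ B : ℝ, ∀ i (s : ℂ), 1 + δ ≤ s.re → ‖L i s‖ ≤ B * Q i s.im ^ δ
  refl : ∃ C : ℝ, 0 ≤ C ∧ ∀ i (x t : ℝ), 0 ≤ x → x ≤ 3 / 4 →
    ‖L i ⟨1 / 2 - x, t⟩‖ ≤ C * Q i t ^ x * ‖L i ⟨1 / 2 + x, t⟩‖

/-- the maximum of `(1+|u|)^a exp (-u^2)` -/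
theorem poly_gauss (a : ℝ) : ∃ K : ℝ, 1 ≤ K ∧ ∀ u : ℝ, (1 + |u|) ^ a * Real.exp (-u ^ 2) ≤ K := by
  refine ⟨Real.exp (|a| ^ 2 + 1), Real.one_le_exp (by positivity), fun u => ?_⟩
  have h1 : 1 + |u| ≤ Real.exp |u| := by
    have := Real.add_one_le_exp |u|
    linarith
  have h2 : (1 + |u|) ^ a ≤ Real.exp (|a| * |u|) := by
    calc (1 + |u|) ^ a ≤ (1 + |u|) ^ |a| :=
          Real.rpow_le_rpow_of_exponent_le (by linarith [abs_nonneg u]) (le_abs_self a)
      _ ≤ (Real.exp |u|) ^ |a| := Real.rpow_le_rpow (by positivity) h1 (abs_nonneg a)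
      _ = Real.exp (|a| * |u|) := by rw [← Real.exp_mul, mul_comm]
  calc (1 + |u|) ^ a * Real.exp (-u ^ 2) ≤ Real.exp (|a| * |u|) * Real.exp (-u ^ 2) :=
        mul_le_mul_of_nonneg_right h2 (Real.exp_pos _).le
    _ = Real.exp (|a| * |u| - u ^ 2) := by rw [← Real.exp_add]; ring_nf
    _ ≤ _ := by
      apply Real.exp_le_exp.2
      have h3 : u ^ 2 = |u| ^ 2 := (sq_abs u).symm
      rw [h3]
      nlinarith [sq_nonneg (|a| - |u|), sq_nonneg |a|, sq_nonneg |u|]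

theorem order_isBigO {f : ℂ → ℂ} {a b A K : ℝ} (hab : a < b)
    (h : ∀ s : ℂ, a ≤ s.re → s.re ≤ b → ‖f s‖ ≤ K * Real.exp (A * (1 + |s.im|) ^ A)) :
    ∃ c < Real.pi / (b - a), ∃ B, f =O[comap (_root_.abs ∘ Complex.im) atTop ⊓ 𝓟 (re ⁻¹' Ioo a b)]
      fun z => Real.exp (B * Real.exp (c * |z.im|)) := by
  have hpi := Real.pi_pos
  have hba : 0 < b - a := by linarith
  set c : ℝ := Real.pi / (2 * (b - a)) with hc
  have hc0 : 0 < c := by positivity
  set c' : ℝ := c / (|A| + 1) with hc'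
  have hc'0 : 0 < c' := by positivity
  have hc'c : c' * |A| ≤ c := by
    rw [hc', div_mul_eq_mul_div, div_le_iff₀ (by positivity)]
    nlinarith [abs_nonneg A]
  have hpoly : ∀ u : ℝ, 0 ≤ u → A * (1 + u) ^ A ≤ |A| * (1 + 1 / c') ^ |A| * Real.exp (c * u) := by
    intro u hu
    have h1 : 1 + u ≤ (1 + 1 / c') * Real.exp (c' * u) := by
      have h2 := Real.add_one_le_exp (c' * u)
      have h3 : 1 ≤ Real.exp (c' * u) := Real.one_le_exp (by positivity)
      have h4 : u ≤ (1 / c') * Real.exp (c' * u) := by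
        rw [one_div, inv_mul_eq_div, le_div_iff₀ hc'0]
        linarith
      linarith
    have h5 : (1 + u) ^ A ≤ (1 + 1 / c') ^ |A| * Real.exp (c * u) := by
      calc (1 + u) ^ A ≤ (1 + u) ^ |A| :=
            Real.rpow_le_rpow_of_exponent_le (by linarith) (le_abs_self A)
        _ ≤ ((1 + 1 / c') * Real.exp (c' * u)) ^ |A| :=
            Real.rpow_le_rpow (by linarith) h1 (abs_nonneg A)
        _ = (1 + 1 / c') ^ |A| * Real.exp (c' * u * |A|) := by
            rw [Real.mul_rpow (by positivity) (Real.exp_pos _).le, ← Real.exp_mul]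
        _ ≤ _ := by
            apply mul_le_mul_of_nonneg_left _ (by positivity)
            apply Real.exp_le_exp.2
            calc c' * u * |A| = (c' * |A|) * u := by ring
              _ ≤ c * u := mul_le_mul_of_nonneg_right hc'c hu
    calc A * (1 + u) ^ A ≤ |A| * (1 + u) ^ A :=
          mul_le_mul_of_nonneg_right (le_abs_self A) (by positivity)
      _ ≤ |A| * ((1 + 1 / c') ^ |A| * Real.exp (c * u)) :=
          mul_le_mul_of_nonneg_left h5 (abs_nonneg A)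
      _ = _ := by ring
  refine ⟨c, ?_, |A| * (1 + 1 / c') ^ |A|, ?_⟩
  · rw [hc]
    apply div_lt_div_of_pos_left hpi hba
    linarith
  · apply Asymptotics.IsBigO.of_bound |K|
    rw [eventually_inf_principal]
    filter_upwards with z hz
    rw [Real.norm_eq_abs, abs_of_pos (Real.exp_pos _)]
    refine (h z hz.1.le hz.2.le).trans ?_
    apply mul_le_mul (le_abs_self K) _ (Real.exp_pos _).le (abs_nonneg K)
    exact Real.exp_le_exp.2 (hpoly _ (abs_nonneg _))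

variable {ι : Type*} {m : ℝ} {L : ι → ℂ → ℂ} {Q : ι → ℝ → ℝ}

/-- Phragmen-Lindelof convexity, uniform in the family -/
theorem pl (H : AFam m L Q) {a b ea eb Ca Cb : ℝ} (hab : a < b) (ha : -1 / 4 ≤ a)
    (hb : b ≤ 5 / 4) (hea : 0 ≤ ea) (heb : 0 ≤ eb) (hCa : 0 ≤ Ca) (hCb : 0 ≤ Cb) :
    ∃ C : ℝ, 0 ≤ C ∧ ∀ i, (∀ t : ℝ, ‖L i ⟨a, t⟩‖ ≤ Ca * Q i t ^ ea) →
      (∀ t : ℝ, ‖L i ⟨b, t⟩‖ ≤ Cb * Q i t ^ eb) →
      ∀ s : ℂ, a ≤ s.re → s.re ≤ b →
        ‖L i s‖ ≤ C * Q i s.im ^ (ea + (eb - ea) / (b - a) * (s.re - a)) := by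
  obtain ⟨K1, hK1, hK1'⟩ := poly_gauss (m * ea)
  obtain ⟨K2, hK2, hK2'⟩ := poly_gauss (m * eb)
  have hba : 0 < b - a := by linarith
  have hm := H.m0
  set C : ℝ := Real.exp (a ^ 2 + b ^ 2) * (Ca * K1 + Cb * K2) with hC
  have hC0 : 0 ≤ C := by positivity
  refine ⟨C, hC0, ?_⟩
  intro i h1 h2 s0 hs1 hs2
  set t0 : ℝ := s0.im with ht0
  set Q0 : ℝ := Q i t0 with hQ0
  have hQ01 : 1 ≤ Q0 := H.Q1 i t0
  have hQ0p : 0 < Q0 := by linarith
  set ℓ : ℝ := Real.log Q0 with hℓ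
  set β : ℝ := (eb - ea) / (b - a) with hβ
  have hβab : β * (b - a) = eb - ea := by rw [hβ]; field_simp
  -- the damped function
  set G : ℂ → ℂ := fun s => L i s * (cexp ((s - t0 * I) ^ 2) *
    cexp (-((ea + β * (s - t0 * I - a)) * ℓ))) with hG
  have hGn : ∀ s : ℂ, ‖G s‖ = ‖L i s‖ * (Real.exp (s.re ^ 2 - (s.im - t0) ^ 2) *
      Real.exp (-((ea + β * (s.re - a)) * ℓ))) := by
    intro s
    simp only [hG]
    rw [norm_mul, norm_mul, norm_exp, norm_exp]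
    congr 3
    · rw [sq, mul_re]; simp; ring
    · simp
  have hQt : ∀ t : ℝ, Q i t ≤ (1 + |t - t0|) ^ m * Q0 := by
    intro t
    have := H.Qs i t0 (t - t0)
    rwa [add_sub_cancel] at this
  have hlin : ∀ s : ℂ, a ≤ s.re → s.re ≤ b → 0 ≤ ea + β * (s.re - a) := by
    intro s g1 g2
    have e : ea + β * (s.re - a) = (ea * (b - s.re) + eb * (s.re - a)) / (b - a) := by
      rw [hβ]; field_simp; ring
    rw [e]
    apply div_nonneg _ hba.le
    have : 0 ≤ ea * (b - s.re) := mul_nonneg hea (by linarith)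
    have : 0 ≤ eb * (s.re - a) := mul_nonneg heb (by linarith)
    linarith
  have hℓ0 : 0 ≤ ℓ := Real.log_nonneg hQ01
  -- boundary
  have hbd : ∀ (x e Cx Kx : ℝ), 0 ≤ e → 0 ≤ Cx → x ^ 2 ≤ a ^ 2 + b ^ 2 →
      (∀ u : ℝ, (1 + |u|) ^ (m * e) * Real.exp (-u ^ 2) ≤ Kx) →
      (∀ t : ℝ, ‖L i ⟨x, t⟩‖ ≤ Cx * Q i t ^ e) → ea + β * (x - a) = e → ∀ z : ℂ, z.re = x →
      ‖G z‖ ≤ Real.exp (a ^ 2 + b ^ 2) * (Cx * Kx) := by
    intro x e Cx Kx he hCx hx hKx hLx hex z hz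
    rw [hGn, hz, hex]
    have hze : z = ⟨x, z.im⟩ := by apply Complex.ext <;> simp [hz]
    have h3 : ‖L i z‖ ≤ Cx * Q i z.im ^ e := by
      have := hLx z.im
      rwa [← hze] at this
    have h4 : Q i z.im ^ e ≤ (1 + |z.im - t0|) ^ (m * e) * Q0 ^ e := by
      calc Q i z.im ^ e ≤ ((1 + |z.im - t0|) ^ m * Q0) ^ e :=
            Real.rpow_le_rpow (by linarith [H.Q1 i z.im]) (hQt _) he
        _ = _ := by
          rw [Real.mul_rpow (by positivity) hQ0p.le, ← Real.rpow_mul (by positivity)]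
    have h5 : Real.exp (-(e * ℓ)) = (Q0 ^ e)⁻¹ := by
      rw [Real.exp_neg, Real.rpow_def_of_pos hQ0p, mul_comm]
    have h6 : Real.exp (x ^ 2 - (z.im - t0) ^ 2) ≤
        Real.exp (a ^ 2 + b ^ 2) * Real.exp (-(z.im - t0) ^ 2) := by
      rw [← Real.exp_add]
      apply Real.exp_le_exp.2
      linarith
    have hQe : 0 < Q0 ^ e := by positivity
    rw [h5]
    calc ‖L i z‖ * (Real.exp (x ^ 2 - (z.im - t0) ^ 2) * (Q0 ^ e)⁻¹)
        ≤ (Cx * ((1 + |z.im - t0|) ^ (m * e) * Q0 ^ e)) *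
          ((Real.exp (a ^ 2 + b ^ 2) * Real.exp (-(z.im - t0) ^ 2)) * (Q0 ^ e)⁻¹) := by
          apply mul_le_mul (h3.trans (mul_le_mul_of_nonneg_left h4 hCx)) _ (by positivity) (by positivity)
          exact mul_le_mul_of_nonneg_right h6 (by positivity)
      _ = Real.exp (a ^ 2 + b ^ 2) * (Cx * ((1 + |z.im - t0|) ^ (m * e) *
          Real.exp (-(z.im - t0) ^ 2))) := by field_simp
      _ ≤ _ := by
        apply mul_le_mul_of_nonneg_left _ (by positivity)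
        exact mul_le_mul_of_nonneg_left (hKx _) hCx
  have hfin : ‖G s0‖ ≤ C := by
    apply PhragmenLindelof.vertical_strip (a := a) (b := b) _ _ _ _ hs1 hs2
    · apply Differentiable.diffContOnCl
      exact (H.diff i).mul (by fun_prop)
    · obtain ⟨A, hA⟩ := H.order i
      apply order_isBigO (A := A) (K := Real.exp (a ^ 2 + b ^ 2)) hab
      intro s g1 g2
      rw [hGn]
      have g3 := hA s (by linarith) (by linarith)
      have g4 : Real.exp (s.re ^ 2 - (s.im - t0) ^ 2) ≤ Real.exp (a ^ 2 + b ^ 2) := by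
        apply Real.exp_le_exp.2
        have : s.re ^ 2 ≤ a ^ 2 + b ^ 2 := by
          rcases le_total 0 s.re with g | g
          · nlinarith [sq_nonneg a]
          · nlinarith [sq_nonneg b]
        nlinarith [sq_nonneg (s.im - t0)]
      have g5 : Real.exp (-((ea + β * (s.re - a)) * ℓ)) ≤ 1 := by
        rw [Real.exp_le_one_iff]
        have := mul_nonneg (hlin s g1 g2) hℓ0
        linarith
      calc ‖L i s‖ * (Real.exp (s.re ^ 2 - (s.im - t0) ^ 2) * Real.exp (-((ea + β * (s.re - a)) * ℓ)))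
          ≤ Real.exp (A * (1 + |s.im|) ^ A) * (Real.exp (a ^ 2 + b ^ 2) * 1) := by gcongr
        _ = _ := by ring
    · intro z hz
      refine (hbd a ea Ca K1 hea hCa (by nlinarith [sq_nonneg b]) hK1' h1 (by ring) z hz).trans ?_
      rw [hC]
      apply mul_le_mul_of_nonneg_left _ (by positivity)
      have : 0 ≤ Cb * K2 := by positivity
      linarith
    · intro z hz
      refine (hbd b eb Cb K2 heb hCb (by nlinarith [sq_nonneg a]) hK2' h2 (by linarith) z hz).trans ?_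
      rw [hC]
      apply mul_le_mul_of_nonneg_left _ (by positivity)
      have : 0 ≤ Ca * K1 := by positivity
      linarith
  rw [hGn, ← ht0, sub_self] at hfin
  have h7 : Real.exp (-((ea + β * (s0.re - a)) * ℓ)) = (Q0 ^ (ea + β * (s0.re - a)))⁻¹ := by
    rw [Real.exp_neg, Real.rpow_def_of_pos hQ0p, mul_comm]
  rw [h7] at hfin
  have h8 : 1 ≤ Real.exp (s0.re ^ 2 - 0 ^ 2) := Real.one_le_exp (by nlinarith [sq_nonneg s0.re])
  have hp : 0 < Q0 ^ (ea + β * (s0.re - a)) := by positivity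
  have h9 : ‖L i s0‖ * (1 * (Q0 ^ (ea + β * (s0.re - a)))⁻¹) ≤ C := by
    refine le_trans ?_ hfin
    gcongr
  rw [one_mul, ← div_eq_mul_inv, div_le_iff₀ hp] at h9
  exact h9

end H855R2.SF
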