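import Mathlib
import Pool.Agent.H855R2.SF.Gam
import Pool.Agent.H855R2.SF.Base

/-!
The analytic data of a standard L-function of `GL(m)` satisfy the hypotheses of the sampling theorem.
-/

open Complex Filter Topology Set

namespace H855R2.SF

/-- bound for the quotient of the gamma factors -/
theorem gamma_prod {m : ℕ} (mu : Fin m → ℂ) (hmu : ∀ j, (mu j).re < 1 / 2) {x t : ℝ} (hx0 : 0 ≤ x)
    (hx1 : x ≤ 3 / 4) :
    (∏ j, ‖Gammaℝ (1 - (⟨1 / 2 - x, t⟩ : ℂ) - (starRingEnd ℂ) (mu j))‖) *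
      (∏ j, ‖(Gammaℝ ((⟨1 / 2 - x, t⟩ : ℂ) - mu j))⁻¹‖) ≤
      16 ^ m * (∏ j, (1 + ‖mu j - t * I‖)) ^ x := by
  rw [← Finset.prod_mul_distrib, ← Real.finsetProd_rpow _ _ (fun j _ => by positivity)]
  have h16 : (16:ℝ) ^ m = ∏ _j : Fin m, (16:ℝ) := by simp
  rw [h16, ← Finset.prod_mul_distrib]
  apply Finset.prod_le_prod (fun j _ => by positivity)
  intro j _
  set w : ℂ := (⟨1 / 2 - x, t⟩ : ℂ) - mu j with hw
  have hwre : w.re = 1 / 2 - x - (mu j).re := by rw [hw]; simp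
  have e1 : 1 - (⟨1 / 2 - x, t⟩ : ℂ) - (starRingEnd ℂ) (mu j) = (starRingEnd ℂ) (w + 2 * x) := by
    apply Complex.ext
    · simp [hw]; ring
    · simp [hw]
  have e2 : ‖Gammaℝ ((starRingEnd ℂ) (w + 2 * x))‖ = ‖Gammaℝ (w + 2 * x)‖ := by
    rw [Gammaℝ_def, Gammaℝ_def, norm_mul, norm_mul,
      Complex.norm_cpow_eq_rpow_re_of_pos Real.pi_pos, Complex.norm_cpow_eq_rpow_re_of_pos Real.pi_pos]
    have e3 : (-(starRingEnd ℂ) (w + 2 * x) / 2).re = (-(w + 2 * x) / 2).re := by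
      simp
    have e4 : (starRingEnd ℂ) (w + 2 * x) / 2 = (starRingEnd ℂ) ((w + 2 * x) / 2) := by
      rw [map_div₀, map_ofNat]
    rw [e3, e4, Complex.Gamma_conj, Complex.norm_conj]
  rw [e1, e2]
  refine (gammaR_quot hx0 hx1 (by rw [hwre]; linarith [hmu j])).trans ?_
  have h1 : 1 + ‖w‖ ≤ 2 * (1 + ‖mu j - t * I‖) := by
    have h2 : w = ((1 / 2 - x : ℝ) : ℂ) - (mu j - t * I) := by
      rw [hw]
      apply Complex.ext <;> simp
    have h3 : ‖w‖ ≤ |1 / 2 - x| + ‖mu j - t * I‖ := by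
      rw [h2]
      refine (norm_sub_le _ _).trans ?_
      rw [Complex.norm_real, Real.norm_eq_abs]
    have h4 : |1 / 2 - x| ≤ 1 := by rw [abs_le]; constructor <;> linarith
    have := norm_nonneg (mu j - t * I)
    linarith
  calc 8 * (1 + ‖w‖) ^ x ≤ 8 * (2 * (1 + ‖mu j - t * I‖)) ^ x := by
        apply mul_le_mul_of_nonneg_left _ (by norm_num)
        exact Real.rpow_le_rpow (by positivity) h1 hx0
    _ = 8 * (2 ^ x * (1 + ‖mu j - t * I‖) ^ x) := by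
        rw [Real.mul_rpow (by norm_num) (by positivity)]
    _ ≤ 8 * (2 ^ (1:ℝ) * (1 + ‖mu j - t * I‖) ^ x) := by
        apply mul_le_mul_of_nonneg_left _ (by norm_num)
        apply mul_le_mul_of_nonneg_right _ (by positivity)
        apply Real.rpow_le_rpow_of_exponent_le (by norm_num) (by linarith)
    _ = _ := by norm_num; ring

/-- reflection of a function satisfying the functional equation -/
theorem refl_of_fe {m : ℕ} {N : ℕ} (hN : 0 < N) (mu : Fin m → ℂ) (hmu : ∀ j, (mu j).re < 1 / 2)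
    {root : ℂ} (hroot : ‖root‖ = 1) {f : ℂ → ℂ}
    (hfe : ∀ s : ℂ, f s * ∏ j, (Gammaℝ (1 - s - (starRingEnd ℂ) (mu j)))⁻¹ =
      root * (N : ℂ) ^ (1 / 2 - s) * (starRingEnd ℂ) (f (1 - (starRingEnd ℂ) s)) *
        ∏ j, (Gammaℝ (s - mu j))⁻¹)
    {x t : ℝ} (hx0 : 0 ≤ x) (hx1 : x ≤ 3 / 4) :
    ‖f ⟨1 / 2 - x, t⟩‖ ≤ 16 ^ m * (N * ∏ j, (1 + ‖mu j - t * I‖)) ^ x * ‖f ⟨1 / 2 + x, t⟩‖ := by
  set s : ℂ := ⟨1 / 2 - x, t⟩ with hs
  have h := hfe s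
  have e1 : 1 - (starRingEnd ℂ) s = ⟨1 / 2 + x, t⟩ := by
    rw [hs]; apply Complex.ext
    · simp; ring
    · simp
  rw [e1] at h
  have hne : ∀ j, Gammaℝ (1 - s - (starRingEnd ℂ) (mu j)) ≠ 0 := by
    intro j
    apply Gammaℝ_ne_zero_of_re_pos
    rw [hs]
    simp
    linarith [hmu j]
  have hpne : ∏ j, ‖Gammaℝ (1 - s - (starRingEnd ℂ) (mu j))‖ ≠ 0 :=
    Finset.prod_ne_zero_iff.2 fun j _ => norm_ne_zero_iff.2 (hne j)
  have hn := congrArg norm h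
  rw [norm_mul, norm_mul, norm_mul, norm_mul, hroot, one_mul, norm_conj, norm_prod, norm_prod] at hn
  have e2 : ∏ j, ‖(Gammaℝ (1 - s - (starRingEnd ℂ) (mu j)))⁻¹‖ =
      (∏ j, ‖Gammaℝ (1 - s - (starRingEnd ℂ) (mu j))‖)⁻¹ := by
    rw [← Finset.prod_inv_distrib]
    apply Finset.prod_congr rfl
    intro j _
    rw [norm_inv]
  have e3 : ‖(N:ℂ) ^ (1 / 2 - s)‖ = (N:ℝ) ^ x := by
    rw [Complex.norm_natCast_cpow_of_pos hN]
    congr 1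
    rw [hs]; simp
  rw [e2, e3, ← div_eq_mul_inv, div_eq_iff hpne] at hn
  have hP : 0 ≤ ∏ j, (1 + ‖mu j - t * I‖) := Finset.prod_nonneg fun j _ => by positivity
  have hg := gamma_prod mu hmu (t := t) hx0 hx1
  rw [hn, Real.mul_rpow (Nat.cast_nonneg _) hP]
  calc (N:ℝ) ^ x * ‖f ⟨1 / 2 + x, t⟩‖ * (∏ j, ‖(Gammaℝ (s - mu j))⁻¹‖) *
        ∏ j, ‖Gammaℝ (1 - s - (starRingEnd ℂ) (mu j))‖
      = ((N:ℝ) ^ x * ‖f ⟨1 / 2 + x, t⟩‖) * ((∏ j, ‖Gammaℝ (1 - s - (starRingEnd ℂ) (mu j))‖) *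
        (∏ j, ‖(Gammaℝ (s - mu j))⁻¹‖)) := by ring
    _ ≤ ((N:ℝ) ^ x * ‖f ⟨1 / 2 + x, t⟩‖) * (16 ^ m * (∏ j, (1 + ‖mu j - t * I‖)) ^ x) :=
        mul_le_mul_of_nonneg_left hg (by positivity)
    _ = _ := by ring

theorem cond_one_le {m : ℕ} {N : ℕ} (hN : 0 < N) (mu : Fin m → ℂ) (t : ℝ) :
    1 ≤ (N:ℝ) * ∏ j, (1 + ‖mu j - t * I‖) := by
  have h1 : (1:ℝ) ≤ N := by exact_mod_cast hN
  have h2 : (1:ℝ) ≤ ∏ j, (1 + ‖mu j - t * I‖) := by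
    have : ∏ _j : Fin m, (1:ℝ) ≤ ∏ j, (1 + ‖mu j - t * I‖) := by
      apply Finset.prod_le_prod (fun _ _ => by norm_num)
      intro j _
      linarith [norm_nonneg (mu j - t * I)]
    simpa using this
  nlinarith

theorem cond_shift {m : ℕ} (N : ℕ) (mu : Fin m → ℂ) (t u : ℝ) :
    (N:ℝ) * ∏ j, (1 + ‖mu j - ((t + u : ℝ) : ℂ) * I‖) ≤
      (1 + |u|) ^ (m:ℝ) * (N * ∏ j, (1 + ‖mu j - t * I‖)) := by
  have h1 : ∏ j, (1 + ‖mu j - ((t + u : ℝ) : ℂ) * I‖) ≤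
      (1 + |u|) ^ (m:ℝ) * ∏ j, (1 + ‖mu j - t * I‖) := by
    rw [Real.rpow_natCast]
    have e : (1 + |u|) ^ m = ∏ _j : Fin m, (1 + |u|) := by simp
    rw [e, ← Finset.prod_mul_distrib]
    apply Finset.prod_le_prod (fun _ _ => by positivity)
    intro j _
    have h2 : mu j - ((t + u : ℝ) : ℂ) * I = (mu j - t * I) - u * I := by push_cast; ring
    have h3 : ‖mu j - ((t + u : ℝ) : ℂ) * I‖ ≤ ‖mu j - t * I‖ + |u| := by
      rw [h2]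
      refine (norm_sub_le _ _).trans ?_
      rw [norm_mul, Complex.norm_real, Real.norm_eq_abs, norm_I, mul_one]
    nlinarith [norm_nonneg (mu j - t * I), abs_nonneg u,
      mul_nonneg (norm_nonneg (mu j - t * I)) (abs_nonneg u)]
  calc (N:ℝ) * ∏ j, (1 + ‖mu j - ((t + u : ℝ) : ℂ) * I‖)
      ≤ N * ((1 + |u|) ^ (m:ℝ) * ∏ j, (1 + ‖mu j - t * I‖)) :=
        mul_le_mul_of_nonneg_left h1 (Nat.cast_nonneg _)
    _ = _ := by ring

end H855R2.SF
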