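import Mathlib
import Pool.Agent.H855R2.SF.Data
import Pool.Agent.H429R2.GP.XF
import Pool.Agent.H429R2.GP.Dir

/-!
Primitive Dirichlet characters of modulus `> 1` form a family in the sense of `AFam`.
-/

open Complex Filter Topology Set

namespace H855R2.SF

open H370.DL H429.GP

section

variable {q : ℕ} [NeZero q] {χ : DirichletCharacter ℂ q}

theorem ne_one_of_prim (hq : 1 < q) (hχ : χ.IsPrimitive) : χ ≠ 1 := by
  intro h
  have := eq_one_of_prim hχ h
  omega

theorem LFunction_conj' (h1 : χ ≠ 1) (s : ℂ) :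
    DirichletCharacter.LFunction χ⁻¹ ((starRingEnd ℂ) s) =
      (starRingEnd ℂ) (DirichletCharacter.LFunction χ s) := by
  have h2 : χ⁻¹ ≠ 1 := inv_ne_one.2 h1
  have c1 : Continuous (fun s : ℂ => DirichletCharacter.LFunction χ⁻¹ ((starRingEnd ℂ) s)) :=
    (DirichletCharacter.differentiable_LFunction h2).continuous.comp continuous_conj
  have c2 : Continuous (fun s : ℂ => (starRingEnd ℂ) (DirichletCharacter.LFunction χ s)) :=
    continuous_conj.comp (DirichletCharacter.differentiable_LFunction h1).continuous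
  have hcl := isClosed_eq c1 c2
  have hsub : ({1}ᶜ : Set ℂ) ⊆ {s : ℂ | DirichletCharacter.LFunction χ⁻¹ ((starRingEnd ℂ) s) =
      (starRingEnd ℂ) (DirichletCharacter.LFunction χ s)} := fun z hz => LFunction_conj χ z hz
  have hd : Dense ({1}ᶜ : Set ℂ) := dense_compl_singleton 1
  have := hcl.closure_subset_iff.2 hsub
  rw [hd.closure_eq] at this
  exact this (Set.mem_univ s)

theorem fe_dir (hq : 1 < q) (hχ : χ.IsPrimitive) (s : ℂ) :
    DirichletCharacter.LFunction χ s *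
        ∏ j : Fin 1, (Gammaℝ (1 - s - (starRingEnd ℂ) ((fun _ : Fin 1 => -aa χ) j)))⁻¹ =
      DirichletCharacter.rootNumber χ * (q : ℂ) ^ (1 / 2 - s) *
        (starRingEnd ℂ) (DirichletCharacter.LFunction χ (1 - (starRingEnd ℂ) s)) *
        ∏ j : Fin 1, (Gammaℝ (s - (fun _ : Fin 1 => -aa χ) j))⁻¹ := by
  have h1 := ne_one_of_prim hq hχ
  simp only [Finset.univ_unique, Finset.prod_singleton]
  rw [map_neg, aa_conj, sub_neg_eq_add, sub_neg_eq_add, ← gammaFactor_eq, ← gammaFactor_eq,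
    ← LFunction_conj' h1]
  have e1 : (starRingEnd ℂ) (1 - (starRingEnd ℂ) s) = 1 - s := by simp
  rw [e1, DirichletCharacter.LFunction_eq_completed_div_gammaFactor χ s (Or.inr (by omega)),
    DirichletCharacter.LFunction_eq_completed_div_gammaFactor χ⁻¹ (1 - s) (Or.inr (by omega)),
    gammaFactor_inv]
  have h3 := DirichletCharacter.IsPrimitive.completedLFunction_one_sub hχ (1 - s)
  rw [show (1 : ℂ) - (1 - s) = s by ring, show (1 : ℂ) - s - 1 / 2 = 1 / 2 - s by ring] at h3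
  rw [h3]
  ring

theorem growth_right (h1 : χ ≠ 1) {s : ℂ} (hs : 0 < s.re) :
    ‖DirichletCharacter.LFunction χ s‖ ≤ ‖s‖ * ((q + 1) / s.re) := by
  have hA : ∀ u : ℝ, ‖∑ k ∈ Finset.Icc 1 ⌊u⌋₊, χ (k : ZMod q)‖ ≤ (q + 1 : ℝ) :=
    fun u => norm_sum_Icc_le h1 _
  rw [L_integral h1 hs, norm_mul]
  have h4 := J_bound hA hs
  exact mul_le_mul_of_nonneg_left h4 (norm_nonneg s)

theorem right_dir {δ : ℝ} (hδ : 0 < δ) {s : ℂ} (hs : 1 + δ ≤ s.re) :
    ‖DirichletCharacter.LFunction χ s‖ ≤ ∑' n : ℕ, 1 / (n : ℝ) ^ (1 + δ) := by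
  have h1 := norm_L_right (χ := χ) (η := s.re - 1) (by linarith) (s := s) (by ring)
  refine h1.trans ?_
  have e : 1 + (s.re - 1) = s.re := by ring
  rw [e]
  apply Summable.tsum_le_tsum _ (Real.summable_one_div_nat_rpow.2 (by linarith))
    (Real.summable_one_div_nat_rpow.2 (by linarith))
  intro n
  rcases Nat.eq_zero_or_pos n with h0 | h0
  · subst h0
    rw [Nat.cast_zero, Real.zero_rpow (by linarith), Real.zero_rpow (by linarith)]
  · have : (1:ℝ) ≤ n := by exact_mod_cast h0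
    apply one_div_le_one_div_of_le (by positivity)
    exact Real.rpow_le_rpow_of_exponent_le this hs

theorem mu_shift (t : ℝ) : 1 + ‖-aa χ - t * I‖ ≤ 2 * (1 + |t|) := by
  have h1 : ‖-aa χ - t * I‖ ≤ ‖aa χ‖ + |t| := by
    refine (norm_sub_le _ _).trans ?_
    rw [norm_neg, norm_mul, Complex.norm_real, Real.norm_eq_abs, norm_I, mul_one]
  have h2 : ‖aa χ‖ ≤ 1 := by
    unfold aa
    split_ifs <;> simp
  linarith [abs_nonneg t]

theorem refl_dir (hq : 1 < q) (hχ : χ.IsPrimitive) {x t : ℝ} (hx0 : 0 ≤ x) (hx1 : x ≤ 3 / 4) :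
    ‖DirichletCharacter.LFunction χ ⟨1 / 2 - x, t⟩‖ ≤
      32 * (q * (1 + |t|)) ^ x * ‖DirichletCharacter.LFunction χ ⟨1 / 2 + x, t⟩‖ := by
  have hmu : ∀ j : Fin 1, ((fun _ : Fin 1 => -aa χ) j).re < 1 / 2 := by
    intro j
    have := aa_re_nonneg (χ := χ)
    simp only [neg_re]
    linarith
  have h := refl_of_fe (m := 1) (N := q) (by omega) (fun _ : Fin 1 => -aa χ) hmu
    (root := DirichletCharacter.rootNumber χ) (norm_rootNumber hχ)
    (f := DirichletCharacter.LFunction χ) (fe_dir hq hχ) (t := t) hx0 hx1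
  simp only [Finset.univ_unique, Finset.prod_singleton, pow_one] at h
  refine h.trans ?_
  apply mul_le_mul_of_nonneg_right _ (norm_nonneg _)
  have hq0 : (0:ℝ) ≤ q := Nat.cast_nonneg _
  calc 16 * ((q:ℝ) * (1 + ‖-aa χ - t * I‖)) ^ x ≤ 16 * (2 * (q * (1 + |t|))) ^ x := by
        apply mul_le_mul_of_nonneg_left _ (by norm_num)
        apply Real.rpow_le_rpow (by positivity) _ hx0
        calc (q:ℝ) * (1 + ‖-aa χ - t * I‖) ≤ q * (2 * (1 + |t|)) :=
              mul_le_mul_of_nonneg_left (mu_shift t) hq0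
          _ = _ := by ring
    _ = 16 * (2 ^ x * (q * (1 + |t|)) ^ x) := by rw [Real.mul_rpow (by norm_num) (by positivity)]
    _ ≤ 16 * (2 ^ (1:ℝ) * (q * (1 + |t|)) ^ x) := by
        apply mul_le_mul_of_nonneg_left _ (by norm_num)
        apply mul_le_mul_of_nonneg_right _ (by positivity)
        apply Real.rpow_le_rpow_of_exponent_le (by norm_num) (by linarith)
    _ = _ := by norm_num; ring

theorem order_dir (hq : 1 < q) (hχ : χ.IsPrimitive) : ∃ A : ℝ, ∀ s : ℂ, -1 / 4 ≤ s.re →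
    s.re ≤ 5 / 4 → ‖DirichletCharacter.LFunction χ s‖ ≤ Real.exp (A * (1 + |s.im|) ^ A) := by
  have h1 := ne_one_of_prim hq hχ
  have hq0 : (1:ℝ) ≤ q := by exact_mod_cast hq.le
  have hpos : ∀ s : ℂ, 1 / 4 ≤ s.re → s.re ≤ 5 / 4 →
      ‖DirichletCharacter.LFunction χ s‖ ≤ 16 * q * (1 + |s.im|) := by
    intro s hs hs2
    refine (growth_right h1 (by linarith)).trans ?_
    have h4 : ‖s‖ ≤ 5 / 4 + |s.im| := by
      refine (norm_le_abs_re_add_abs_im s).trans ?_
      rw [abs_of_pos (by linarith)]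
      linarith
    have h5 : ((q : ℝ) + 1) / s.re ≤ 8 * q := by
      rw [div_le_iff₀ (by linarith)]
      nlinarith
    have h6 : ‖s‖ * ((q + 1) / s.re) ≤ (5 / 4 + |s.im|) * (8 * q) :=
      mul_le_mul h4 h5 (by positivity) (by positivity)
    nlinarith [abs_nonneg s.im]
  have hall : ∀ s : ℂ, -1 / 4 ≤ s.re → s.re ≤ 5 / 4 →
      ‖DirichletCharacter.LFunction χ s‖ ≤ 512 * q ^ 2 * (1 + |s.im|) ^ 2 := by
    intro s hs hs2
    rcases le_total (1 / 4) s.re with h | h
    · refine (hpos s h hs2).trans ?_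
      have ht := abs_nonneg s.im
      have g1 : (q:ℝ) ≤ q ^ 2 := by nlinarith
      have g2 : (1 + |s.im|) ≤ (1 + |s.im|) ^ 2 := by nlinarith
      calc 16 * (q:ℝ) * (1 + |s.im|) ≤ 16 * q ^ 2 * (1 + |s.im|) ^ 2 := by gcongr
        _ ≤ _ := by
          apply mul_le_mul_of_nonneg_right _ (by positivity)
          nlinarith
    · set x : ℝ := 1 / 2 - s.re with hx
      have h3 := refl_dir hq hχ (x := x) (t := s.im) (by linarith) (by linarith)
      have e1 : (⟨1 / 2 - x, s.im⟩ : ℂ) = s := by apply Complex.ext <;> simp [hx]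
      rw [e1] at h3
      have h4 := hpos ⟨1 / 2 + x, s.im⟩ (by simp; linarith) (by simp; linarith)
      simp only at h4
      have hb : 1 ≤ (q:ℝ) * (1 + |s.im|) := by nlinarith [abs_nonneg s.im]
      have h5 : ((q:ℝ) * (1 + |s.im|)) ^ x ≤ q * (1 + |s.im|) := by
        calc ((q:ℝ) * (1 + |s.im|)) ^ x ≤ ((q:ℝ) * (1 + |s.im|)) ^ (1:ℝ) :=
              Real.rpow_le_rpow_of_exponent_le hb (by linarith)
          _ = _ := Real.rpow_one _
      calc ‖DirichletCharacter.LFunction χ s‖ ≤ _ := h3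
        _ ≤ 32 * (q * (1 + |s.im|)) * (16 * q * (1 + |s.im|)) := by gcongr
        _ = _ := by ring
  set P : ℝ := 512 * (q:ℝ) ^ 2 with hP
  have hP0 : 0 ≤ P := by positivity
  refine ⟨P + 2, fun s hs hs2 => (hall s hs hs2).trans ?_⟩
  set u : ℝ := 1 + |s.im| with hu
  have hu1 : 1 ≤ u := by rw [hu]; linarith [abs_nonneg s.im]
  have g1 : P ≤ Real.exp P := by linarith [Real.add_one_le_exp P]
  have g2 : u ^ 2 ≤ Real.exp (2 * u) := by
    have h6 : u ≤ Real.exp u := by linarith [Real.add_one_le_exp u]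
    calc u ^ 2 ≤ (Real.exp u) ^ 2 := pow_le_pow_left₀ (by linarith) h6 2
      _ = Real.exp (2 * u) := by rw [← Real.exp_nat_mul]; norm_num
  calc P * u ^ 2 ≤ Real.exp P * Real.exp (2 * u) := mul_le_mul g1 g2 (by positivity) (by positivity)
    _ = Real.exp (P + 2 * u) := by rw [Real.exp_add]
    _ ≤ _ := by
      apply Real.exp_le_exp.2
      have h7 : u ≤ u ^ (P + 2) := by
        calc u = u ^ (1:ℝ) := (Real.rpow_one u).symm
          _ ≤ _ := Real.rpow_le_rpow_of_exponent_le hu1 (by linarith)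
      calc P + 2 * u ≤ (P + 2) * u := by nlinarith
        _ ≤ _ := mul_le_mul_of_nonneg_left h7 (by linarith)

end

/-- a primitive Dirichlet character of modulus `> 1` in a given family -/
structure DC (S : (q : ℕ) → DirichletCharacter ℂ q → Prop) where
  q : ℕ
  hq : 1 < q
  χ : DirichletCharacter ℂ q
  prim : χ.IsPrimitive
  mem : S q χ

variable {S : (q : ℕ) → DirichletCharacter ℂ q → Prop}

instance (i : DC S) : NeZero i.q := ⟨by have := i.hq; omega⟩

/-- the L-function of a member of the family -/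
noncomputable def dirL (i : DC S) (s : ℂ) : ℂ := DirichletCharacter.LFunction i.χ s

/-- the conductor `q (1 + |t|)` -/
noncomputable def dirQ (i : DC S) (t : ℝ) : ℝ := i.q * (1 + |t|)

theorem dir_afam (S : (q : ℕ) → DirichletCharacter ℂ q → Prop) :
    AFam 1 (dirL (S := S)) (dirQ (S := S)) where
  m0 := by norm_num
  Q1 := by
    intro i t
    unfold dirQ
    have h1 : (1:ℝ) ≤ i.q := by exact_mod_cast i.hq.le
    nlinarith [abs_nonneg t]
  Qs := by
    intro i t u
    unfold dirQ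
    rw [Real.rpow_one]
    have h1 : (0:ℝ) ≤ i.q := Nat.cast_nonneg _
    have h2 : 1 + |t + u| ≤ (1 + |u|) * (1 + |t|) := by
      have := abs_add_le t u
      nlinarith [abs_nonneg t, abs_nonneg u, mul_nonneg (abs_nonneg t) (abs_nonneg u)]
    calc (i.q:ℝ) * (1 + |t + u|) ≤ i.q * ((1 + |u|) * (1 + |t|)) := mul_le_mul_of_nonneg_left h2 h1
      _ = _ := by ring
  diff := fun i => DirichletCharacter.differentiable_LFunction (ne_one_of_prim i.hq i.prim)
  order := fun i => order_dir i.hq i.prim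
  right := by
    intro δ hδ
    refine ⟨∑' n : ℕ, 1 / (n : ℝ) ^ (1 + δ), fun i s hs => ?_⟩
    have h0 : 0 ≤ ∑' n : ℕ, 1 / (n : ℝ) ^ (1 + δ) := tsum_nonneg fun n => by positivity
    refine (right_dir hδ hs).trans ?_
    apply le_mul_of_one_le_right h0
    apply Real.one_le_rpow _ hδ.le
    unfold dirQ
    have h1 : (1:ℝ) ≤ i.q := by exact_mod_cast i.hq.le
    nlinarith [abs_nonneg s.im]
  refl := ⟨32, by norm_num, fun i x t hx0 hx1 => refl_dir i.hq i.prim hx0 hx1⟩

end H855R2.SF
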