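import Mathlib
import Pool.Agent.H855R2.SF.Base

open Complex Filter Topology Set

namespace H855R2.SF

variable {ι : Type*} {m : ℝ} {L : ι → ℂ → ℂ} {Q : ι → ℝ → ℝ}

theorem apriori (H : AFam m L Q) : ∃ C : ℝ, 0 ≤ C ∧ ∀ i (t : ℝ), ‖L i ⟨1 / 2, t⟩‖ ≤ C * Q i t := by
  obtain ⟨B0, hB0⟩ := H.right (1 / 4) (by norm_num)
  obtain ⟨R, hR0, hR⟩ := H.refl
  set B : ℝ := |B0| with hB
  have hr : ∀ i (t : ℝ), ‖L i ⟨5 / 4, t⟩‖ ≤ B * Q i t ^ ((1:ℝ) / 4) := by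
    intro i t
    have := hB0 i ⟨5 / 4, t⟩ (by norm_num)
    refine this.trans ?_
    apply mul_le_mul_of_nonneg_right (le_abs_self B0)
    have := H.Q1 i t
    positivity
  have hl : ∀ i (t : ℝ), ‖L i ⟨-1 / 4, t⟩‖ ≤ (R * B) * Q i t ^ (1:ℝ) := by
    intro i t
    have h1 := hR i (3 / 4) t (by norm_num) le_rfl
    have e1 : (1 / 2 - 3 / 4 : ℝ) = -1 / 4 := by norm_num
    have e2 : (1 / 2 + 3 / 4 : ℝ) = 5 / 4 := by norm_num
    rw [e1, e2] at h1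
    have hQ : 0 < Q i t := by linarith [H.Q1 i t]
    calc ‖L i ⟨-1 / 4, t⟩‖ ≤ R * Q i t ^ ((3:ℝ) / 4) * ‖L i ⟨5 / 4, t⟩‖ := h1
      _ ≤ R * Q i t ^ ((3:ℝ) / 4) * (B * Q i t ^ ((1:ℝ) / 4)) :=
          mul_le_mul_of_nonneg_left (hr i t) (by positivity)
      _ = (R * B) * (Q i t ^ ((3:ℝ) / 4) * Q i t ^ ((1:ℝ) / 4)) := by ring
      _ = _ := by rw [← Real.rpow_add hQ]; norm_num
  obtain ⟨C, hC0, hC⟩ := pl H (a := -1 / 4) (b := 5 / 4) (ea := 1) (eb := 1 / 4) (Ca := R * B)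
    (Cb := B) (by norm_num) le_rfl le_rfl (by norm_num) (by norm_num) (by positivity) (by positivity)
  refine ⟨C, hC0, fun i t => ?_⟩
  have h1 := hC i (hl i) (hr i) ⟨1 / 2, t⟩ (by norm_num) (by norm_num)
  refine h1.trans ?_
  apply mul_le_mul_of_nonneg_left _ hC0
  have hQ := H.Q1 i t
  calc Q i t ^ ((1:ℝ) + (1 / 4 - 1) / (5 / 4 - -1 / 4) * (1 / 2 - -1 / 4))
      ≤ Q i t ^ (1:ℝ) := Real.rpow_le_rpow_of_exponent_le hQ (by norm_num)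
    _ = Q i t := Real.rpow_one _

theorem strip_conv (H : AFam m L Q) {M : ℝ} (hM0 : 0 ≤ M)
    (hM : ∃ C : ℝ, ∀ i (t : ℝ), ‖L i ⟨1 / 2, t⟩‖ ≤ C * Q i t ^ M) {ξ : ℝ} (hξ : 0 < ξ) :
    ∃ C : ℝ, 0 ≤ C ∧ ∀ i (s : ℂ), 1 / 2 ≤ s.re → s.re ≤ 1 →
      ‖L i s‖ ≤ C * Q i s.im ^ (M - (2 * M - ξ) * (s.re - 1 / 2)) := by
  obtain ⟨C0, hC0⟩ := hM
  set η : ℝ := min (1 / 4) (ξ / (2 * (1 + 2 * M))) with hη
  have hη0 : 0 < η := lt_min (by norm_num) (by positivity)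
  have hη1 : η ≤ 1 / 4 := min_le_left _ _
  have hη2 : η * (1 + 2 * M) ≤ ξ / 2 := by
    have h1 : η ≤ ξ / (2 * (1 + 2 * M)) := min_le_right _ _
    rw [le_div_iff₀ (by positivity)] at h1
    linarith
  obtain ⟨B0, hB0⟩ := H.right η hη0
  have hl : ∀ i (t : ℝ), ‖L i ⟨1 / 2, t⟩‖ ≤ |C0| * Q i t ^ M := by
    intro i t
    refine (hC0 i t).trans ?_
    apply mul_le_mul_of_nonneg_right (le_abs_self C0)
    have := H.Q1 i t
    positivity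
  have hr : ∀ i (t : ℝ), ‖L i ⟨1 + η, t⟩‖ ≤ |B0| * Q i t ^ η := by
    intro i t
    refine (hB0 i ⟨1 + η, t⟩ le_rfl).trans ?_
    apply mul_le_mul_of_nonneg_right (le_abs_self B0)
    have := H.Q1 i t
    positivity
  obtain ⟨C, hC0', hC⟩ := pl H (a := 1 / 2) (b := 1 + η) (ea := M) (eb := η) (Ca := |C0|)
    (Cb := |B0|) (by linarith) (by norm_num) (by linarith) hM0 hη0.le (by positivity) (by positivity)
  refine ⟨C, hC0', fun i s h1 h2 => ?_⟩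
  refine (hC i (hl i) (hr i) s h1 (by linarith)).trans ?_
  apply mul_le_mul_of_nonneg_left _ hC0'
  apply Real.rpow_le_rpow_of_exponent_le (H.Q1 i _)
  have h3 : (2 * M - ξ) * (s.re - 1 / 2) ≤ (M - η) / (1 + η - 1 / 2) * (s.re - 1 / 2) := by
    apply mul_le_mul_of_nonneg_right _ (by linarith)
    rw [le_div_iff₀ (by linarith)]
    nlinarith
  have h4 : (η - M) / (1 + η - 1 / 2) * (s.re - 1 / 2) = -((M - η) / (1 + η - 1 / 2) * (s.re - 1 / 2)) := by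
    ring
  rw [h4]
  linarith

theorem strip_sym (H : AFam m L Q) {M : ℝ} (hM0 : 0 ≤ M)
    (hM : ∃ C : ℝ, ∀ i (t : ℝ), ‖L i ⟨1 / 2, t⟩‖ ≤ C * Q i t ^ M) {ξ : ℝ} (hξ : 0 < ξ) :
    ∃ C : ℝ, 0 ≤ C ∧ ∀ i (s : ℂ), |s.re - 1 / 2| ≤ 1 / 2 →
      ‖L i s‖ ≤ C * Q i s.im ^ (M + (1 / 2 - 2 * M + ξ) * |s.re - 1 / 2| - (s.re - 1 / 2) / 2) := by
  obtain ⟨C, hC, h⟩ := strip_conv H hM0 hM hξ
  obtain ⟨R, hR0, hR⟩ := H.refl
  refine ⟨(1 + R) * C, by positivity, ?_⟩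
  intro i s hs1
  have hQ : 0 < Q i s.im := by linarith [H.Q1 i s.im]
  rcases le_total (1 / 2) s.re with h1 | h1
  · rw [abs_of_nonneg (by linarith)] at hs1 ⊢
    have h2 := h i s h1 (by linarith)
    have e : M + (1 / 2 - 2 * M + ξ) * (s.re - 1 / 2) - (s.re - 1 / 2) / 2 =
        M - (2 * M - ξ) * (s.re - 1 / 2) := by ring
    rw [e]
    refine h2.trans ?_
    apply mul_le_mul_of_nonneg_right _ (by positivity)
    nlinarith
  · rw [abs_of_nonpos (by linarith)] at hs1 ⊢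
    set x : ℝ := 1 / 2 - s.re with hx
    have h3 := hR i x s.im (by linarith) (by linarith)
    have e1 : (⟨1 / 2 - x, s.im⟩ : ℂ) = s := by apply Complex.ext <;> simp [hx]
    rw [e1] at h3
    have h2 := h i ⟨1 / 2 + x, s.im⟩ (by simp; linarith) (by simp; linarith)
    simp only at h2
    have e2 : (1 / 2 + x - 1 / 2 : ℝ) = x := by ring
    rw [e2] at h2
    calc ‖L i s‖ ≤ R * Q i s.im ^ x * ‖L i ⟨1 / 2 + x, s.im⟩‖ := h3
      _ ≤ R * Q i s.im ^ x * (C * Q i s.im ^ (M - (2 * M - ξ) * x)) :=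
          mul_le_mul_of_nonneg_left h2 (by positivity)
      _ = (R * C) * (Q i s.im ^ x * Q i s.im ^ (M - (2 * M - ξ) * x)) := by ring
      _ = (R * C) * Q i s.im ^ (x + (M - (2 * M - ξ) * x)) := by rw [Real.rpow_add hQ]
      _ = (R * C) * Q i s.im ^ (M + (1 / 2 - 2 * M + ξ) * -(s.re - 1 / 2) - (s.re - 1 / 2) / 2) := by
          congr 2
          rw [hx]; ring
      _ ≤ _ := by
        apply mul_le_mul_of_nonneg_right _ (by positivity)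
        nlinarith

end H855R2.SF
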