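import Mathlib
import Pool.Agent.H855R2.LH.LSamp2
import Pool.Agent.H855R2.LH.Step2
import Pool.Agent.H855R2.SF.Strip

open Complex Filter Topology Set Finset

namespace H855R2.SF

open H855R2.LH (Nodes local_sampling EE1 cc2 cc2_pos Ds_lower)

variable {ι : Type*} {m : ℝ} {L : ι → ℂ → ℂ} {Q : ι → ℝ → ℝ}

/-- the filter of `Q i t → ∞`, uniformly in everything -/
def FF (Q : ι → ℝ → ℝ) : Filter (ι × ℝ) := comap (fun p => Q p.1 p.2) atTop

theorem ev_FF {Q : ι → ℝ → ℝ} {P : ι × ℝ → Prop} :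
    (∀ᶠ p in FF Q, P p) ↔ ∃ Q0 : ℝ, ∀ i (T : ℝ), Q0 ≤ Q i T → P (i, T) := by
  unfold FF
  rw [eventually_comap, eventually_atTop]
  constructor
  · rintro ⟨a, ha⟩
    exact ⟨a, fun i T hT => ha _ hT (i, T) rfl⟩
  · rintro ⟨a, ha⟩
    exact ⟨a, fun b hb p hp => ha p.1 p.2 (by rw [hp]; exact hb)⟩

theorem tendsto_Q (Q : ι → ℝ → ℝ) : Tendsto (fun p : ι × ℝ => Q p.1 p.2) (FF Q) atTop :=
  tendsto_comap

theorem Q_lower (H : AFam m L Q) (i : ι) (t u : ℝ) : Q i t / (1 + |u|) ^ m ≤ Q i (t + u) := by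
  have h := H.Qs i (t + u) (-u)
  rw [add_neg_cancel_right, abs_neg] at h
  rw [div_le_iff₀ (by positivity)]
  linarith

theorem tendsto_shift (H : AFam m L Q) (u : ℝ) :
    Tendsto (fun p : ι × ℝ => (p.1, p.2 + u)) (FF Q) (FF Q) := by
  unfold FF
  rw [tendsto_comap_iff]
  have h1 : Tendsto (fun p : ι × ℝ => Q p.1 p.2 / (1 + |u|) ^ m) (FF Q) atTop :=
    (tendsto_Q Q).atTop_div_const (by positivity)
  apply tendsto_atTop_mono _ h1
  intro p
  exact Q_lower H p.1 p.2 u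

/-- from a bound for large conductor to a bound for all -/
theorem all_of_eventually (H : AFam m L Q) {M : ℝ} (hM : 0 ≤ M)
    (h : ∃ C : ℝ, ∀ᶠ p in FF Q, ‖L p.1 ⟨1 / 2, p.2⟩‖ ≤ C * Q p.1 p.2 ^ M) :
    ∃ C : ℝ, ∀ i (t : ℝ), ‖L i ⟨1 / 2, t⟩‖ ≤ C * Q i t ^ M := by
  obtain ⟨C, hC⟩ := h
  obtain ⟨Q0, hQ0⟩ := ev_FF.1 hC
  obtain ⟨A, hA0, hA⟩ := apriori H
  refine ⟨|C| + A * |Q0|, fun i t => ?_⟩
  have hQ1 := H.Q1 i t
  have h1 : 1 ≤ Q i t ^ M := Real.one_le_rpow hQ1 hM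
  rcases le_total Q0 (Q i t) with h2 | h2
  · refine (hQ0 i t h2).trans ?_
    simp only
    apply mul_le_mul_of_nonneg_right _ (by positivity)
    have := le_abs_self C
    have : 0 ≤ A * |Q0| := by positivity
    linarith
  · calc ‖L i ⟨1 / 2, t⟩‖ ≤ A * Q i t := hA i t
      _ ≤ A * |Q0| := mul_le_mul_of_nonneg_left (h2.trans (le_abs_self _)) hA0
      _ ≤ (|C| + A * |Q0|) * 1 := by linarith [abs_nonneg C]
      _ ≤ _ := mul_le_mul_of_nonneg_left h1 (by positivity)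

/-- the local function -/
noncomputable def locf (f : ℂ → ℂ) (q h' T : ℝ) (w : ℂ) : ℂ :=
  cexp (((h' * Real.log q / 2 : ℝ) : ℂ) * I * w) * f (1 / 2 + ((T : ℂ) + h' * w) * I)

theorem half_eq (t : ℝ) : (⟨1 / 2, t⟩ : ℂ) = 1 / 2 + t * I := by
  apply Complex.ext <;> simp

theorem locf_zero (f : ℂ → ℂ) (q h' T : ℝ) : locf f q h' T 0 = f ⟨1 / 2, T⟩ := by
  rw [half_eq]
  simp [locf]

theorem locf_real (f : ℂ → ℂ) (q h' T x : ℝ) :
    ‖locf f q h' T x‖ = ‖f ⟨1 / 2, T + h' * x⟩‖ := by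
  unfold locf
  rw [norm_mul, Complex.norm_exp]
  have : (((h' * Real.log q / 2 : ℝ) : ℂ) * I * (x : ℂ)).re = 0 := by
    simp
  rw [this, Real.exp_zero, one_mul, half_eq]
  push_cast
  rfl

theorem locf_diff {f : ℂ → ℂ} (hf : Differentiable ℂ f) (q h' T : ℝ) :
    Differentiable ℂ (locf f q h' T) := by
  unfold locf
  apply Differentiable.mul
  · fun_prop
  · exact hf.comp (by fun_prop)

theorem locf_bound (H : AFam m L Q) {M1 ξ C τ h' R : ℝ} (hC : 0 ≤ C) (hM1 : 0 ≤ M1) (hξ : 0 < ξ)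
    (hζ : ∀ i (s : ℂ), |s.re - 1 / 2| ≤ 1 / 2 →
      ‖L i s‖ ≤ C * Q i s.im ^ (M1 + (1 / 2 - 2 * M1 + ξ) * |s.re - 1 / 2| - (s.re - 1 / 2) / 2))
    (hτ0 : 0 ≤ τ) (hτ : 1 / 2 - 2 * M1 + ξ ≤ τ) (hR : 0 ≤ R) (i : ι) (T : ℝ) {w : ℂ}
    (hw1 : |h' * w.re| ≤ R) (hw2 : |h' * w.im| ≤ 1 / 2) :
    ‖locf (L i) (Q i T) h' T w‖ ≤
      (C * ((1 + R) ^ m) ^ (1 + 2 * M1 + ξ)) * Q i T ^ (M1 + τ / 2) := by
  set q : ℝ := Q i T with hq
  have hq1 : 1 ≤ q := H.Q1 i T
  have hq0 : 0 < q := by linarith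
  set K : ℝ := (1 + R) ^ m with hK
  have hK1 : 1 ≤ K := Real.one_le_rpow (by linarith) H.m0
  have hK0 : 0 < K := by linarith
  unfold locf
  rw [norm_mul, Complex.norm_exp]
  set s : ℂ := 1 / 2 + ((T : ℂ) + h' * w) * I with hs
  have hre : s.re - 1 / 2 = -(h' * w.im) := by rw [hs]; simp
  have him : s.im = T + h' * w.re := by rw [hs]; simp
  have h3 := hζ i s (by rw [hre, abs_neg]; exact hw2)
  set x : ℝ := s.re - 1 / 2 with hx
  have hx2 : |x| ≤ 1 / 2 := by rw [hre, abs_neg]; exact hw2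
  have he1 : (((h' * Real.log q / 2 : ℝ) : ℂ) * I * w).re = Real.log q * (x / 2) := by
    rw [hre]; simp; ring
  have he2 : Real.exp (Real.log q * (x / 2)) = q ^ (x / 2) := by
    rw [Real.rpow_def_of_pos hq0]
  rw [he1, he2]
  set e : ℝ := M1 + (1 / 2 - 2 * M1 + ξ) * |x| - x / 2 with he
  have hxabs := abs_le.1 hx2
  have hxn := abs_nonneg x
  have hea : |e| ≤ 1 + 2 * M1 + ξ := by
    rw [abs_le]
    constructor
    · rw [he]; nlinarith
    · rw [he]; nlinarith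
  have hpm : (1 + |h' * w.re|) ^ m ≤ K := by
    apply Real.rpow_le_rpow (by positivity) (by linarith) H.m0
  have ht2 : Q i s.im ≤ K * q := by
    rw [him]
    exact (H.Qs i T (h' * w.re)).trans (mul_le_mul_of_nonneg_right hpm hq0.le)
  have ht1 : q / K ≤ Q i s.im := by
    rw [him]
    refine le_trans ?_ (Q_lower H i T (h' * w.re))
    exact div_le_div_of_nonneg_left hq0.le (by positivity) hpm
  have hQs : 0 < Q i s.im := by linarith [H.Q1 i s.im]
  have hpow : Q i s.im ^ e ≤ K ^ (1 + 2 * M1 + ξ) * q ^ e := by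
    rcases le_total 0 e with h0 | h0
    · calc Q i s.im ^ e ≤ (K * q) ^ e := Real.rpow_le_rpow hQs.le ht2 h0
        _ = K ^ e * q ^ e := Real.mul_rpow hK0.le hq0.le
        _ ≤ K ^ (1 + 2 * M1 + ξ) * q ^ e := by
          apply mul_le_mul_of_nonneg_right _ (by positivity)
          apply Real.rpow_le_rpow_of_exponent_le hK1
          exact (le_abs_self e).trans hea
    · calc Q i s.im ^ e ≤ (q / K) ^ e := Real.rpow_le_rpow_of_nonpos (by positivity) ht1 h0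
        _ = K ^ (-e) * q ^ e := by
          rw [Real.div_rpow hq0.le hK0.le, Real.rpow_neg hK0.le]
          field_simp
        _ ≤ K ^ (1 + 2 * M1 + ξ) * q ^ e := by
          apply mul_le_mul_of_nonneg_right _ (by positivity)
          apply Real.rpow_le_rpow_of_exponent_le hK1
          exact (neg_le_abs e).trans hea
  calc q ^ (x / 2) * ‖L i s‖ ≤ q ^ (x / 2) * (C * (K ^ (1 + 2 * M1 + ξ) * q ^ e)) := by
        apply mul_le_mul_of_nonneg_left _ (by positivity)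
        exact h3.trans (mul_le_mul_of_nonneg_left hpow hC)
    _ = (C * K ^ (1 + 2 * M1 + ξ)) * (q ^ (x / 2) * q ^ e) := by ring
    _ = (C * K ^ (1 + 2 * M1 + ξ)) * q ^ (x / 2 + e) := by rw [Real.rpow_add hq0]
    _ ≤ _ := by
        apply mul_le_mul_of_nonneg_left _ (by positivity)
        apply Real.rpow_le_rpow_of_exponent_le hq1
        rw [he]
        have h5 : (1 / 2 - 2 * M1 + ξ) * |x| ≤ τ * |x| := mul_le_mul_of_nonneg_right hτ hxn
        have h6 : τ * |x| ≤ τ * (1 / 2) := mul_le_mul_of_nonneg_left hx2 hτ0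
        linarith

/-- the hypothesis at `(i, T)` for a window of length `h` -/
def WinP (L : ι → ℂ → ℂ) (Q : ι → ℝ → ℝ) (h p' c b : ℝ) (p : ι × ℝ) : Prop :=
  ∃ F : Finset ℝ, h * Real.log (Q p.1 p.2) * p' / (2 * Real.pi) ≤ F.card ∧
    (∀ t ∈ F, p.2 ≤ t ∧ t ≤ p.2 + h ∧ ‖L p.1 ⟨1 / 2, t⟩‖ ≤ Q p.1 p.2 ^ b) ∧
    (∀ t ∈ F, ∀ u ∈ F, t ≠ u → c / Real.log (Q p.1 p.2) ≤ |t - u|)

/-- nodes at height `T` -/
theorem exists_nodes (H : AFam m L Q) {h' κ p' c b T K : ℝ} {N n : ℕ} {i : ι} (hh' : 0 < h')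
    (hκ : 0 < κ) (hκ2 : κ < 1 / 2) (hc : 0 < c) (hb : 0 ≤ b)
    (hK : K = (1 + N * h') ^ m) (hT : 4 * K ≤ Q i T) (hp' : 0 < p')
    (hW : ∀ j ∈ Finset.Ico (-(N : ℤ)) N, WinP L Q ((1 - 2 * κ) * h') p' c b (i, T + (j + κ) * h'))
    (hn : (n : ℝ) ≤ (1 - 2 * κ) * h' * (Real.log (Q i T) - Real.log K) * p' / (2 * Real.pi)) :
    ∃ F : ℤ → Finset ℝ, Nodes N n κ (c / (2 * Real.log (Q i T) * h')) F ∧
      ∀ j ∈ Finset.Ico (-(N : ℤ)) N, ∀ x ∈ F j,
        ‖locf (L i) (Q i T) h' T x‖ ≤ K ^ b * Q i T ^ b := by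
  classical
  set q : ℝ := Q i T with hq
  have hK1 : 1 ≤ K := by
    rw [hK]
    apply Real.one_le_rpow _ H.m0
    have : 0 ≤ (N:ℝ) * h' := by positivity
    linarith
  have hK0 : 0 < K := by linarith
  have hq4 : 4 ≤ q := by linarith
  have hT0 : 0 < q := by linarith
  have hKq : K ≤ q := by linarith
  have hpi := Real.pi_pos
  have hex : ∀ j : ℤ, ∃ G : Finset ℝ, j ∈ Finset.Ico (-(N : ℤ)) N →
      (G.card = n ∧ (∀ x ∈ G, (j:ℝ) + κ ≤ x ∧ x ≤ j + 1 - κ) ∧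
        (∀ x ∈ G, ∀ y ∈ G, x ≠ y → c / (2 * Real.log q * h') ≤ |x - y|) ∧
        (∀ x ∈ G, ‖locf (L i) q h' T x‖ ≤ K ^ b * q ^ b)) := by
    intro j
    by_cases hj : j ∈ Finset.Ico (-(N : ℤ)) N
    · obtain ⟨F, hF1, hF2, hF3⟩ := hW j hj
      simp only at hF1 hF2 hF3
      have hj' := Finset.mem_Ico.1 hj
      have hj1 : -(N:ℝ) ≤ j := by exact_mod_cast hj'.1
      have hj2 : (j:ℝ) + 1 ≤ N := by exact_mod_cast hj'.2
      set Tj : ℝ := T + (j + κ) * h' with hTj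
      set qj : ℝ := Q i Tj with hqj
      have habs : |(j + κ) * h'| ≤ N * h' := by
        rw [abs_mul, abs_of_pos hh']
        apply mul_le_mul_of_nonneg_right _ hh'.le
        rw [abs_le]
        constructor <;> linarith
      have hpm : (1 + |(j + κ) * h'|) ^ m ≤ K := by
        rw [hK]
        apply Real.rpow_le_rpow (by positivity) (by linarith) H.m0
      have hTj2 : qj ≤ K * q :=
        (H.Qs i T ((j + κ) * h')).trans (mul_le_mul_of_nonneg_right hpm hT0.le)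
      have hTj1 : q / K ≤ qj := by
        refine le_trans ?_ (Q_lower H i T ((j + κ) * h'))
        exact div_le_div_of_nonneg_left hT0.le (by positivity) hpm
      have hqK : 4 ≤ q / K := by
        rw [le_div_iff₀ hK0]; exact hT
      have hTj0 : 0 < qj := by linarith
      have hTj1' : 1 < qj := by linarith
      have hlog1 : Real.log q - Real.log K ≤ Real.log qj := by
        rw [← Real.log_div hT0.ne' hK0.ne']
        exact Real.log_le_log (by positivity) hTj1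
      have hlogj : 0 < Real.log qj := Real.log_pos hTj1'
      have hlog2 : Real.log qj ≤ 2 * Real.log q := by
        have h1 : Real.log qj ≤ Real.log (q ^ 2) := by
          apply Real.log_le_log hTj0
          nlinarith
        rw [Real.log_pow] at h1
        exact_mod_cast h1
      have hcard : n ≤ F.card := by
        have h1 : (1 - 2 * κ) * h' * (Real.log q - Real.log K) * p' / (2 * Real.pi) ≤
            (1 - 2 * κ) * h' * Real.log qj * p' / (2 * Real.pi) := by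
          have : 0 ≤ (1 - 2 * κ) * h' := mul_nonneg (by linarith) hh'.le
          gcongr
        exact_mod_cast hn.trans (h1.trans hF1)
      obtain ⟨F', hF'1, hF'2⟩ := Finset.exists_subset_card_eq hcard
      have hinj : Function.Injective (fun t : ℝ => (t - T) / h') := by
        intro a b hab
        have hab' : (a - T) / h' = (b - T) / h' := hab
        rw [div_left_inj' hh'.ne'] at hab'
        linarith
      refine ⟨F'.image (fun t : ℝ => (t - T) / h'), fun _ => ⟨?_, ?_, ?_, ?_⟩⟩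
      · rw [Finset.card_image_of_injective _ hinj, hF'2]
      · intro x hx
        obtain ⟨t, ht, rfl⟩ := Finset.mem_image.1 hx
        obtain ⟨h1, h2, _⟩ := hF2 t (hF'1 ht)
        constructor
        · rw [le_div_iff₀ hh']; linarith
        · rw [div_le_iff₀ hh']; linarith
      · intro x hx y hy hxy
        obtain ⟨t, ht, rfl⟩ := Finset.mem_image.1 hx
        obtain ⟨u, hu, rfl⟩ := Finset.mem_image.1 hy
        have htu : t ≠ u := fun h => hxy (by rw [h])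
        have h1 := hF3 t (hF'1 ht) u (hF'1 hu) htu
        have h2 : (t - T) / h' - (u - T) / h' = (t - u) / h' := by ring
        rw [h2, abs_div, abs_of_pos hh', le_div_iff₀ hh']
        refine le_trans ?_ h1
        have hlogT : 0 < Real.log q := Real.log_pos (by linarith)
        have h3 : c / (2 * Real.log q * h') * h' = c / (2 * Real.log q) := by
          field_simp
        rw [h3]
        exact div_le_div_of_nonneg_left hc.le hlogj hlog2
      · intro x hx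
        obtain ⟨t, ht, rfl⟩ := Finset.mem_image.1 hx
        obtain ⟨_, _, h3⟩ := hF2 t (hF'1 ht)
        rw [locf_real]
        have h4 : T + h' * ((t - T) / h') = t := by field_simp; ring
        rw [h4]
        refine h3.trans ?_
        rw [← Real.mul_rpow hK0.le hT0.le]
        exact Real.rpow_le_rpow hTj0.le hTj2 hb
    · exact ⟨∅, fun h => absurd h hj⟩
  choose G hG using hex
  exact ⟨G, ⟨fun j hj => (hG j hj).1, fun j hj => (hG j hj).2.1, fun j hj => (hG j hj).2.2.1⟩,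
    fun j hj => (hG j hj).2.2.2⟩

theorem step_core (H : AFam m L Q) {M1 ξ C τ h' κ p p' c b ε3 : ℝ} {N : ℕ} (hC : 0 ≤ C)
    (hM1 : 0 ≤ M1) (hξ : 0 < ξ)
    (hζ : ∀ i (s : ℂ), |s.re - 1 / 2| ≤ 1 / 2 →
      ‖L i s‖ ≤ C * Q i s.im ^ (M1 + (1 / 2 - 2 * M1 + ξ) * |s.re - 1 / 2| - (s.re - 1 / 2) / 2))
    (hτ0 : 0 ≤ τ) (hτ : 1 / 2 - 2 * M1 + ξ ≤ τ) (hh' : 0 < h') (hh1 : h' ≤ 1 / 2) (hκ : 0 < κ)
    (hκ2 : κ < 1 / 2) (hN : 3 ≤ N) (hYN : 3 * (1 / (2 * h')) ≤ N) (hp : 0 < p) (hpp' : p < p')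
    (hc : 0 < c) (hb : 0 ≤ b) (hε3 : 0 < ε3)
    (hW : ∀ᶠ P in FF Q, WinP L Q ((1 - 2 * κ) * h') p' c b P)
    (hE : EE1 N κ (1 / (2 * h')) ≤ 1) :
    ∃ C' : ℝ, 0 ≤ C' ∧ ∀ᶠ P in FF Q, ‖L P.1 ⟨1 / 2, P.2⟩‖ ≤
      C' * (Q P.1 P.2 ^ (M1 + τ / 2 + ((1 - 2 * κ) * h' * p / (2 * Real.pi)) *
          Real.log (EE1 N κ (1 / (2 * h')))) +
        Q P.1 P.2 ^ (b + ((1 - 2 * κ) * h' * p / (2 * Real.pi)) *
          Real.log (N ^ 3 / (κ ^ 2 * cc2 c κ p)) + ε3)) := by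
  have hpi := Real.pi_pos
  have hN3 : (3:ℝ) ≤ N := by exact_mod_cast hN
  have hN0 : (0:ℝ) < N := by linarith
  have hκ3 : 0 < 1 - 2 * κ := by linarith
  set Y : ℝ := 1 / (2 * h') with hY
  have hY1 : 1 ≤ Y := by
    rw [hY, le_div_iff₀ (by positivity)]; linarith
  have hhY : h' * Y = 1 / 2 := by rw [hY]; field_simp
  set E1 : ℝ := EE1 N κ Y with hE1
  have hE1pos : 0 < E1 := by rw [hE1]; unfold EE1; positivity
  set q : ℝ := (1 - 2 * κ) * h' * p / (2 * Real.pi) with hq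
  have hq0 : 0 < q := by rw [hq]; positivity
  set q' : ℝ := (1 - 2 * κ) * h' * p' / (2 * Real.pi) with hq'
  have hqq' : q < q' := by
    rw [hq, hq']
    apply div_lt_div_of_pos_right _ (by positivity)
    apply mul_lt_mul_of_pos_left hpp' (by positivity)
  set c2 : ℝ := cc2 c κ p with hc2
  have hc20 : 0 < c2 := cc2_pos hc hκ2 hp
  have hc21 : c2 ≤ 1 := min_le_left _ _
  have hc22 : c2 ≤ c * (1 - 2 * κ) * p / (16 * Real.pi * Real.exp 1) := min_le_right _ _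
  set X : ℝ := N ^ 3 / (κ ^ 2 * c2) with hX
  have hX1 : 1 ≤ X := by
    rw [hX, le_div_iff₀ (by positivity)]
    have h1 : κ ^ 2 * c2 ≤ 1 * 1 := by
      apply mul_le_mul _ hc21 hc20.le (by norm_num)
      nlinarith
    have h2 : (1:ℝ) ≤ (N:ℝ) ^ 3 := one_le_pow₀ (by linarith)
    linarith
  set ℓ : ℝ := Real.log X with hℓ
  have hℓ0 : 0 ≤ ℓ := Real.log_nonneg hX1
  set K : ℝ := (1 + N * h') ^ m with hK
  have hK1 : 1 ≤ K := by
    rw [hK]
    apply Real.one_le_rpow _ H.m0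
    have : 0 ≤ (N:ℝ) * h' := by positivity
    linarith
  have hK0 : 0 < K := by linarith
  -- eventual conditions
  have hlogT : Tendsto (fun P : ι × ℝ => Real.log (Q P.1 P.2)) (FF Q) atTop :=
    Real.tendsto_log_atTop.comp (tendsto_Q Q)
  have ev1 : ∀ᶠ P in FF Q, ∀ j ∈ Finset.Ico (-(N : ℤ)) N,
      WinP L Q ((1 - 2 * κ) * h') p' c b (P.1, P.2 + (j + κ) * h') := by
    rw [Filter.eventually_all_finset]
    intro j _
    exact (tendsto_shift H ((j + κ) * h')).eventually hW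
  have ev2 : ∀ᶠ P in FF Q, 1 + q' * Real.log K ≤ (q' - q) * Real.log (Q P.1 P.2) :=
    (hlogT.const_mul_atTop (by linarith)).eventually_ge_atTop _
  have ev3 : ∀ᶠ P in FF Q, 2 ≤ q * Real.log (Q P.1 P.2) :=
    (hlogT.const_mul_atTop hq0).eventually_ge_atTop _
  set K1 : ℝ := C * K ^ (1 + 2 * M1 + ξ) with hK1'
  set K2 : ℝ := 2 * N * (q / ε3 + 1) * K ^ b * Real.exp ℓ * (1 + 1 / κ) with hK2
  have hK10 : 0 ≤ K1 := by positivity
  have hK20 : 0 ≤ K2 := by positivity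
  refine ⟨K1 + K2, by positivity, ?_⟩
  filter_upwards [ev1, ev2, ev3, (tendsto_Q Q).eventually_ge_atTop (4 * K)] with P h1 h2 h3 hT4
  obtain ⟨i, T0⟩ := P
  simp only at h1 h2 h3 hT4 ⊢
  set T : ℝ := Q i T0 with hTdef
  have hT0 : 0 < T := by linarith
  have hT1 : 1 < T := by linarith
  set L' : ℝ := Real.log T with hL
  have hL0 : 0 < L' := Real.log_pos hT1
  set n : ℕ := ⌈q * L'⌉₊ with hn
  have hn1 : q * L' ≤ n := Nat.le_ceil _
  have hn2 : (n : ℝ) ≤ q * L' + 1 := (Nat.ceil_lt_add_one (by positivity)).le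
  have hnge : (2:ℝ) ≤ n := h3.trans hn1
  have hn1' : 1 ≤ n := by
    have : (1:ℝ) ≤ n := by linarith
    exact_mod_cast this
  obtain ⟨F, hF, hFB⟩ := exists_nodes (n := n) H hh' hκ hκ2 hc hb hK hT4 (by linarith) h1 (by
    have e : (1 - 2 * κ) * h' * (Real.log (Q i T0) - Real.log K) * p' / (2 * Real.pi) =
        q' * (L' - Real.log K) := by rw [hq', hL]; ring
    rw [e]
    nlinarith)
  rw [← hTdef] at hF hFB
  set s : ℝ := c / (2 * Real.log T * h') with hs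
  have hs0 : 0 < s := by rw [hs]; positivity
  have hloc := local_sampling (Y := Y) (A := K1 * T ^ (M1 + τ / 2)) (B := K ^ b * T ^ b) hN hn1' hκ hκ2 hs0 hY1 hYN
    hF (U := Set.univ) isOpen_univ (Set.subset_univ _) (f := locf (L i) T h' T0)
    (locf_diff (H.diff i) T h' T0).differentiableOn (by
      intro w hw1 hw2
      rw [hK1', hK]
      apply locf_bound H hC hM1 hξ hζ hτ0 hτ (by positivity)
      · rw [abs_mul, abs_of_pos hh', mul_comm]
        exact mul_le_mul_of_nonneg_right hw1 hh'.le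
      · rw [abs_mul, abs_of_pos hh', ← hhY]
        exact mul_le_mul_of_nonneg_left hw2 hh'.le) hFB (by positivity)
  rw [locf_zero] at hloc
  -- first term
  have hpow1 : E1 ^ n ≤ T ^ (q * Real.log E1) := by
    have h4 : E1 ^ n = Real.exp (n * Real.log E1) := by
      rw [mul_comm, Real.exp_mul, Real.exp_log hE1pos, Real.rpow_natCast]
    rw [h4, Real.rpow_def_of_pos hT0]
    apply Real.exp_le_exp.2
    have h5 : Real.log E1 ≤ 0 := Real.log_nonpos hE1pos.le hE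
    have h6 : (n:ℝ) * Real.log E1 ≤ (q * L') * Real.log E1 := mul_le_mul_of_nonpos_right hn1 h5
    calc (n:ℝ) * Real.log E1 ≤ (q * L') * Real.log E1 := h6
      _ = Real.log T * (q * Real.log E1) := by rw [hL]; ring
  have hterm1 : (K1 * T ^ (M1 + τ / 2)) * E1 ^ n ≤ K1 * T ^ (M1 + τ / 2 + q * Real.log E1) := by
    have hadd : T ^ (M1 + τ / 2 + q * Real.log E1) = T ^ (M1 + τ / 2) * T ^ (q * Real.log E1) :=
      Real.rpow_add hT0 _ _
    rw [hadd, ← mul_assoc]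
    exact mul_le_mul_of_nonneg_left hpow1 (by positivity)
  -- second term
  have hDs : c2 ^ n ≤ s ^ (n - 1) * ((n - 1).factorial : ℝ) / 2 ^ (n - 1) := by
    apply Ds_lower hs0 hn1' hc20 hc21
    have h4 : q * L' / 2 ≤ (n:ℝ) - 1 := by linarith
    have h5 : s * (q * L' / 2) ≤ s * ((n:ℝ) - 1) := mul_le_mul_of_nonneg_left h4 hs0.le
    refine le_trans ?_ h5
    have h6 : s * (q * L' / 2) = c * (1 - 2 * κ) * p / (8 * Real.pi) := by
      rw [hs, hq, ← hL]; field_simp; ring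
    rw [h6]
    calc 2 * Real.exp 1 * c2 ≤ 2 * Real.exp 1 * (c * (1 - 2 * κ) * p / (16 * Real.pi * Real.exp 1)) :=
          mul_le_mul_of_nonneg_left hc22 (by positivity)
      _ = _ := by field_simp; ring
  have hDs0 : 0 < s ^ (n - 1) * ((n - 1).factorial : ℝ) / 2 ^ (n - 1) := lt_of_lt_of_le (by positivity) hDs
  have hpow2 : (N ^ 3 / κ ^ 2) ^ n / (s ^ (n - 1) * ((n - 1).factorial : ℝ) / 2 ^ (n - 1)) ≤
      Real.exp ℓ * T ^ (q * ℓ) := by
    calc (N ^ 3 / κ ^ 2) ^ n / (s ^ (n - 1) * ((n - 1).factorial : ℝ) / 2 ^ (n - 1))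
        ≤ (N ^ 3 / κ ^ 2) ^ n / c2 ^ n := by
          apply div_le_div_of_nonneg_left (by positivity) (by positivity) hDs
      _ = X ^ n := by
          rw [hX, ← div_pow]
          congr 1
          field_simp
      _ = Real.exp (n * ℓ) := by
          rw [mul_comm, Real.exp_mul, Real.exp_log (by linarith), Real.rpow_natCast]
      _ ≤ Real.exp (ℓ + Real.log T * (q * ℓ)) := by
          apply Real.exp_le_exp.2
          have h4 : (n:ℝ) * ℓ ≤ (q * L' + 1) * ℓ := mul_le_mul_of_nonneg_right hn2 hℓ0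
          calc (n:ℝ) * ℓ ≤ (q * L' + 1) * ℓ := h4
            _ = _ := by rw [hL]; ring
      _ = _ := by rw [Real.exp_add, Real.rpow_def_of_pos hT0]
  have hncount : (2 * N * n : ℝ) ≤ 2 * N * (q / ε3 + 1) * T ^ ε3 := by
    have h4 : L' ≤ T ^ ε3 / ε3 := Real.log_le_rpow_div hT0.le hε3
    have h5 : (1:ℝ) ≤ T ^ ε3 := Real.one_le_rpow (by linarith) hε3.le
    have h6 : (n:ℝ) ≤ (q / ε3 + 1) * T ^ ε3 := by
      calc (n:ℝ) ≤ q * L' + 1 := hn2
        _ ≤ q * (T ^ ε3 / ε3) + T ^ ε3 := by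
          have := mul_le_mul_of_nonneg_left h4 hq0.le
          linarith
        _ = _ := by ring
    calc (2 * N * n : ℝ) ≤ 2 * N * ((q / ε3 + 1) * T ^ ε3) :=
          mul_le_mul_of_nonneg_left h6 (by positivity)
      _ = _ := by ring
  have hterm2 : (2 * N * n) * (K ^ b * T ^ b) *
      ((N ^ 3 / κ ^ 2) ^ n / (s ^ (n - 1) * ((n - 1).factorial : ℝ) / 2 ^ (n - 1))) * (1 + 1 / κ) ≤
      K2 * T ^ (b + q * ℓ + ε3) := by
    calc (2 * N * n) * (K ^ b * T ^ b) *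
      ((N ^ 3 / κ ^ 2) ^ n / (s ^ (n - 1) * ((n - 1).factorial : ℝ) / 2 ^ (n - 1))) * (1 + 1 / κ)
        ≤ (2 * N * (q / ε3 + 1) * T ^ ε3) * (K ^ b * T ^ b) * (Real.exp ℓ * T ^ (q * ℓ)) * (1 + 1 / κ) := by
          gcongr
      _ = K2 * (T ^ b * T ^ (q * ℓ) * T ^ ε3) := by rw [hK2]; ring
      _ = _ := by rw [← Real.rpow_add hT0, ← Real.rpow_add hT0]
  have hE1' : (13 * (N:ℝ) ^ 3 / κ) * Real.exp (-(Real.pi * Y - Y ^ 2 / (N - 2))) = E1 := rfl
  rw [hE1'] at hloc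
  have hp1 : 0 ≤ T ^ (M1 + τ / 2 + q * Real.log E1) := by positivity
  have hp2 : 0 ≤ T ^ (b + q * ℓ + ε3) := by positivity
  calc ‖L i ⟨1 / 2, T0⟩‖ ≤ _ := hloc
    _ ≤ K1 * T ^ (M1 + τ / 2 + q * Real.log E1) + K2 * T ^ (b + q * ℓ + ε3) :=
        add_le_add hterm1 hterm2
    _ ≤ _ := by nlinarith [mul_nonneg hK10 hp2, mul_nonneg hK20 hp1]

end H855R2.SF
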