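import Mathlib
import Pool.Agent.H855R2.SF.Main

open Complex Filter Topology Set Finset

namespace H855R2.SF

variable {ι : Type*} {m : ℝ} {L : ι → ℂ → ℂ} {Q : ι → ℝ → ℝ}

/-- gaps between points with small values are at most `θ` times `2π/log Q` -/
def Gap (L : ι → ℂ → ℂ) (Q : ι → ℝ → ℝ) (θ a : ℝ) : Prop :=
  ∀ θ' : ℝ, θ < θ' → ∀ ε : ℝ, 0 < ε → ∀ᶠ P in FF Q,
    ∃ t : ℝ, P.2 ≤ t ∧ t ≤ P.2 + 2 * Real.pi * θ' / Real.log (Q P.1 P.2) ∧
      ‖L P.1 ⟨1 / 2, t⟩‖ ≤ Q P.1 P.2 ^ (a + ε)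

theorem gap_dens (H : AFam m L Q) {θ a : ℝ} (hθ : 0 < θ) (ha : 0 ≤ a) (hg : Gap L Q θ a) :
    Dens L Q θ a := by
  intro θ' hθ' ε hε
  have hpi := Real.pi_pos
  set θ1 : ℝ := θ + (θ' - θ) / 4 with hθ1
  set θa : ℝ := θ + 2 * (θ' - θ) / 4 with hθa
  set θ2 : ℝ := θ + 3 * (θ' - θ) / 4 with hθ2
  have h01 : θ < θ1 := by rw [hθ1]; linarith
  have h1a : θ1 < θa := by rw [hθ1, hθa]; linarith
  have ha2 : θa < θ2 := by rw [hθa, hθ2]; linarith
  have h2' : θ2 < θ' := by rw [hθ2]; linarith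
  have hθ10 : 0 < θ1 := by linarith
  have hθa0 : 0 < θa := by linarith
  have hθ20 : 0 < θ2 := by linarith
  have hθ'0 : 0 < θ' := by linarith
  obtain ⟨T1, hT1⟩ := ev_FF.1 (hg θ1 h01 (ε / 2) (by positivity))
  set c : ℝ := 2 * Real.pi * (θ2 - θa) with hc
  have hc0 : 0 < c := by
    rw [hc]; apply mul_pos (by positivity); linarith
  refine ⟨c, hc0, fun h hh => ?_⟩
  set K0 : ℝ := (1 + h) ^ m with hK0
  have hK01 : 1 ≤ K0 := Real.one_le_rpow (by linarith) H.m0
  have hK00 : 0 < K0 := by linarith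
  have hlogT : Tendsto (fun P : ι × ℝ => Real.log (Q P.1 P.2)) (FF Q) atTop :=
    Real.tendsto_log_atTop.comp (tendsto_Q Q)
  have ev1 : ∀ᶠ P in FF Q,
      1 ≤ (h / (2 * Real.pi * θ2) - h / (2 * Real.pi * θ')) * Real.log (Q P.1 P.2) := by
    apply (hlogT.const_mul_atTop _).eventually_ge_atTop
    have : h / (2 * Real.pi * θ') < h / (2 * Real.pi * θ2) := by
      apply div_lt_div_of_pos_left hh (by positivity)
      apply mul_lt_mul_of_pos_left h2' (by positivity)
    linarith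
  have ev2 : ∀ᶠ P in FF Q, K0 ^ (a + ε / 2) ≤ Q P.1 P.2 ^ (ε / 2) :=
    ((tendsto_rpow_atTop (by positivity)).comp (tendsto_Q Q)).eventually_ge_atTop _
  have ev3 : ∀ᶠ P in FF Q, θa * Real.log K0 ≤ (θa - θ1) * Real.log (Q P.1 P.2) :=
    (hlogT.const_mul_atTop (by linarith)).eventually_ge_atTop _
  have ev4 : ∀ᶠ P in FF Q, 1 + Real.log K0 ≤ Real.log (Q P.1 P.2) := hlogT.eventually_ge_atTop _
  filter_upwards [ev1, ev2, ev3, ev4, (tendsto_Q Q).eventually_ge_atTop (K0 * |T1|),
    (tendsto_Q Q).eventually_ge_atTop 2] with P e1 e2 e3 e4 e5 e6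
  obtain ⟨i, T⟩ := P
  simp only at e1 e2 e3 e4 e5 e6 ⊢
  set q : ℝ := Q i T with hq
  have hTpos : 0 < q := by linarith
  set L' : ℝ := Real.log q with hL
  have hL0 : 0 < L' := Real.log_pos (by linarith)
  set d : ℝ := 2 * Real.pi * θ2 / L' with hd
  have hd0 : 0 < d := by positivity
  set δ : ℝ := 2 * Real.pi * θa / L' with hδ
  have hdδ : d - δ = c / L' := by rw [hd, hδ, hc]; ring
  have hcL : 0 < c / L' := by positivity
  have hsh : ∀ u : ℝ, 0 ≤ u → u ≤ h → Q i (T + u) ≤ K0 * q ∧ q / K0 ≤ Q i (T + u) := by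
    intro u hu0 huh
    have hpm : (1 + |u|) ^ m ≤ K0 := by
      rw [abs_of_nonneg hu0]
      exact Real.rpow_le_rpow (by positivity) (by linarith) H.m0
    constructor
    · exact (H.Qs i T u).trans (mul_le_mul_of_nonneg_right hpm hTpos.le)
    · refine le_trans ?_ (Q_lower H i T u)
      exact div_le_div_of_nonneg_left hTpos.le (by positivity) hpm
  have hex : ∀ k : ℕ, ∃ t : ℝ, ((k:ℝ) * d ≤ h → T + k * d ≤ t ∧ t ≤ T + k * d + δ ∧
      ‖L i ⟨1 / 2, t⟩‖ ≤ q ^ (a + ε)) := by
    intro k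
    by_cases hkd : (k:ℝ) * d ≤ h
    · have hk : 0 ≤ k * d := by positivity
      obtain ⟨g1, g2⟩ := hsh (k * d) hk hkd
      have g3 : T1 ≤ Q i (T + k * d) := by
        refine le_trans ?_ g2
        rw [le_div_iff₀ hK00, mul_comm]
        exact (mul_le_mul_of_nonneg_left (le_abs_self T1) hK00.le).trans e5
      obtain ⟨t, ht1, ht2, ht3⟩ := hT1 i (T + k * d) g3
      simp only at ht1 ht2 ht3
      refine ⟨t, fun _ => ⟨ht1, ht2.trans ?_, ?_⟩⟩
      · have h5 : L' - Real.log K0 ≤ Real.log (Q i (T + k * d)) := by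
          rw [hL, ← Real.log_div hTpos.ne' hK00.ne']
          exact Real.log_le_log (by positivity) g2
        have h6 : 0 < L' - Real.log K0 := by linarith
        have : 2 * Real.pi * θ1 / Real.log (Q i (T + k * d)) ≤ δ := by
          calc 2 * Real.pi * θ1 / Real.log (Q i (T + k * d)) ≤ 2 * Real.pi * θ1 / (L' - Real.log K0) :=
                div_le_div_of_nonneg_left (by positivity) h6 h5
            _ ≤ δ := by
              rw [hδ, div_le_div_iff₀ h6 hL0]
              have : θ1 * L' ≤ θa * (L' - Real.log K0) := by linarith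
              nlinarith
        linarith
      · refine ht3.trans ?_
        have hQ0 : 0 ≤ Q i (T + k * d) := by linarith [H.Q1 i (T + k * d)]
        calc (Q i (T + k * d)) ^ (a + ε / 2) ≤ (K0 * q) ^ (a + ε / 2) :=
              Real.rpow_le_rpow hQ0 g1 (by positivity)
          _ = K0 ^ (a + ε / 2) * q ^ (a + ε / 2) := Real.mul_rpow hK00.le hTpos.le
          _ ≤ q ^ (ε / 2) * q ^ (a + ε / 2) := mul_le_mul_of_nonneg_right e2 (by positivity)
          _ = q ^ (a + ε) := by
              rw [← Real.rpow_add hTpos]; congr 1; ring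
    · exact ⟨0, fun h => absurd h hkd⟩
  choose t ht using hex
  set K : ℕ := ⌊h / d⌋₊ with hK
  have hK1 : (K:ℝ) ≤ h / d := Nat.floor_le (by positivity)
  have hK2 : h / d < K + 1 := Nat.lt_floor_add_one _
  have hkh : ∀ k ∈ Finset.range K, ((k:ℝ) + 1) * d ≤ h := by
    intro k hk
    have hk' : (k:ℝ) + 1 ≤ K := by exact_mod_cast Finset.mem_range.1 hk
    calc ((k:ℝ) + 1) * d ≤ (h / d) * d := mul_le_mul_of_nonneg_right (hk'.trans hK1) hd0.le
      _ = h := by field_simp
  have hsep : ∀ k ∈ Finset.range K, ∀ l ∈ Finset.range K, k < l → c / L' ≤ t l - t k := by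
    intro k hk l hl hkl
    have h1 := (ht l (by linarith [hkh l hl])).1
    have h2 := (ht k (by linarith [hkh k hk])).2.1
    have h3 : ((k:ℝ) + 1) ≤ l := by exact_mod_cast hkl
    have h4 : ((k:ℝ) + 1) * d ≤ l * d := mul_le_mul_of_nonneg_right h3 hd0.le
    linarith
  have hinj : Set.InjOn t (Finset.range K : Set ℕ) := by
    intro k hk l hl hkl
    rcases lt_trichotomy k l with h1 | h1 | h1
    · have := hsep k hk l hl h1; rw [hkl] at this; linarith
    · exact h1
    · have := hsep l hl k hk h1; rw [hkl] at this; linarith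
  refine ⟨(Finset.range K).image t, ?_, ?_, ?_⟩
  · rw [Finset.card_image_of_injOn hinj, Finset.card_range]
    have h1 : h / d = h / (2 * Real.pi * θ2) * L' := by rw [hd]; field_simp
    have h2 : h * L' / (2 * Real.pi * θ') = h / (2 * Real.pi * θ') * L' := by ring
    rw [h2]
    rw [h1] at hK2
    linarith
  · intro x hx
    obtain ⟨k, hk, rfl⟩ := Finset.mem_image.1 hx
    have h1 := hkh k hk
    have hk0 : 0 ≤ k * d := by positivity
    obtain ⟨g1, g2, g3⟩ := ht k (by linarith)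
    refine ⟨by linarith, ?_, g3⟩
    have h3 : δ ≤ d := by linarith [hdδ, hcL]
    linarith
  · intro x hx y hy hxy
    obtain ⟨k, hk, rfl⟩ := Finset.mem_image.1 hx
    obtain ⟨l, hl, rfl⟩ := Finset.mem_image.1 hy
    rcases lt_trichotomy k l with h1 | h1 | h1
    · have := hsep k hk l hl h1
      rw [abs_sub_comm]
      exact this.trans (le_abs_self _)
    · rw [h1] at hxy; exact absurd rfl hxy
    · have := hsep l hl k hk h1
      exact this.trans (le_abs_self _)

/-- positive proportion version -/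
theorem meas_dens {a ρ : ℝ} (hρ : 0 < ρ)
    (hm : ∀ ε : ℝ, 0 < ε → ∀ h : ℝ, 0 < h → ∀ᶠ P in FF Q,
      ENNReal.ofReal (ρ * h) ≤ MeasureTheory.volume
        {t : ℝ | P.2 ≤ t ∧ t ≤ P.2 + h ∧ ‖L P.1 ⟨1 / 2, t⟩‖ ≤ Q P.1 P.2 ^ (a + ε)})
    {θ : ℝ} (hθ : 0 < θ) : Dens L Q θ a := by
  classical
  intro θ' hθ' ε hε
  have hpi := Real.pi_pos
  have hθ'0 : 0 < θ' := by linarith
  set c : ℝ := Real.pi * θ' * ρ with hc
  have hc0 : 0 < c := by positivity
  refine ⟨c, hc0, fun h hh => ?_⟩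
  filter_upwards [hm ε hε h hh, (tendsto_Q Q).eventually_ge_atTop 2] with P hvol hT2
  obtain ⟨i, T⟩ := P
  simp only at hvol hT2 ⊢
  set q : ℝ := Q i T with hq
  set E : Set ℝ := {t : ℝ | T ≤ t ∧ t ≤ T + h ∧ ‖L i ⟨1 / 2, t⟩‖ ≤ q ^ (a + ε)} with hE
  set L' : ℝ := Real.log q with hL
  have hL0 : 0 < L' := Real.log_pos (by linarith)
  set δ : ℝ := c / L' with hδ
  have hδ0 : 0 < δ := by positivity
  set J : ℕ → Set ℝ := fun k => Set.Ico (T + k * δ) (T + (k + 1) * δ) with hJ
  set S : Finset ℕ := (Finset.range (⌊h / δ⌋₊ + 1)).filter (fun k => (E ∩ J k).Nonempty) with hS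
  have hcover : E ⊆ ⋃ k ∈ S, J k := by
    intro t ht
    have h1 : 0 ≤ (t - T) / δ := div_nonneg (by linarith [ht.1]) hδ0.le
    set k : ℕ := ⌊(t - T) / δ⌋₊ with hk
    have h2 : (k:ℝ) ≤ (t - T) / δ := Nat.floor_le h1
    have h3 : (t - T) / δ < k + 1 := Nat.lt_floor_add_one _
    rw [le_div_iff₀ hδ0] at h2
    rw [div_lt_iff₀ hδ0] at h3
    have htJ : t ∈ J k := ⟨by linarith, by linarith⟩
    have hkS : k ∈ S := by
      rw [hS, Finset.mem_filter, Finset.mem_range]
      refine ⟨?_, t, ht, htJ⟩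
      have : k ≤ ⌊h / δ⌋₊ := by
        apply Nat.floor_le_floor
        apply div_le_div_of_nonneg_right _ hδ0.le
        linarith [ht.2.1]
      omega
    exact Set.mem_biUnion hkS htJ
  have hvol2 : MeasureTheory.volume E ≤ ENNReal.ofReal (S.card * δ) := by
    calc MeasureTheory.volume E ≤ MeasureTheory.volume (⋃ k ∈ S, J k) := MeasureTheory.measure_mono hcover
      _ ≤ ∑ k ∈ S, MeasureTheory.volume (J k) := MeasureTheory.measure_biUnion_finset_le S J
      _ = ∑ k ∈ S, ENNReal.ofReal δ := by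
          apply Finset.sum_congr rfl
          intro k _
          rw [hJ]
          simp only
          rw [Real.volume_Ico]
          congr 1
          ring
      _ = ENNReal.ofReal (S.card * δ) := by
          rw [Finset.sum_const, nsmul_eq_mul, ENNReal.ofReal_mul (Nat.cast_nonneg _),
            ENNReal.ofReal_natCast]
  have hcard : ρ * h ≤ S.card * δ := by
    have := hvol.trans hvol2
    rwa [ENNReal.ofReal_le_ofReal_iff (by positivity)] at this
  -- choose a parity class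
  obtain ⟨b, hb⟩ : ∃ b : ℕ, (S.card : ℝ) ≤ 2 * ((S.filter (fun k => k % 2 = b)).card : ℝ) := by
    have h1 : (S.filter (fun k => k % 2 = 0)).card + (S.filter (fun k => ¬ k % 2 = 0)).card = S.card :=
      Finset.card_filter_add_card_filter_not _
    have h2 : S.filter (fun k => ¬ k % 2 = 0) = S.filter (fun k => k % 2 = 1) := by
      apply Finset.filter_congr
      intro k _
      omega
    rw [h2] at h1
    rcases le_total (S.filter (fun k => k % 2 = 0)).card (S.filter (fun k => k % 2 = 1)).card with h3 | h3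
    · refine ⟨1, ?_⟩
      have : S.card ≤ 2 * (S.filter (fun k => k % 2 = 1)).card := by omega
      exact_mod_cast this
    · refine ⟨0, ?_⟩
      have : S.card ≤ 2 * (S.filter (fun k => k % 2 = 0)).card := by omega
      exact_mod_cast this
  set S' : Finset ℕ := S.filter (fun k => k % 2 = b) with hS'
  have hne : ∀ k : ℕ, ∃ t : ℝ, k ∈ S' → t ∈ E ∩ J k := by
    intro k
    by_cases hk : k ∈ S'
    · have h1 := (Finset.mem_filter.1 (Finset.mem_filter.1 hk).1).2
      obtain ⟨t, ht⟩ := h1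
      exact ⟨t, fun _ => ht⟩
    · exact ⟨0, fun h => absurd h hk⟩
  choose t ht using hne
  have hsep : ∀ k ∈ S', ∀ l ∈ S', k < l → c / L' ≤ t l - t k := by
    intro k hk l hl hkl
    have h1 := (ht k hk).2.2
    have h2 := (ht l hl).2.1
    have h3 : k + 2 ≤ l := by
      have a1 := (Finset.mem_filter.1 hk).2
      have a2 := (Finset.mem_filter.1 hl).2
      omega
    have h4 : (k:ℝ) + 2 ≤ l := by exact_mod_cast h3
    have h5 : ((k:ℝ) + 2) * δ ≤ l * δ := mul_le_mul_of_nonneg_right h4 hδ0.le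
    have h6 : c / L' = δ := rfl
    rw [h6]
    linarith
  have hcL : 0 < c / L' := by positivity
  have hinj : Set.InjOn t (S' : Set ℕ) := by
    intro k hk l hl hkl
    rcases lt_trichotomy k l with h1 | h1 | h1
    · have := hsep k hk l hl h1; rw [hkl] at this; linarith
    · exact h1
    · have := hsep l hl k hk h1; rw [hkl] at this; linarith
  refine ⟨S'.image t, ?_, ?_, ?_⟩
  · rw [Finset.card_image_of_injOn hinj]
    have h1 : h * L' / (2 * Real.pi * θ') = (ρ * h / δ) / 2 := by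
      rw [hδ, hc]; field_simp
    rw [h1]
    have h2 : ρ * h / δ ≤ S.card := by
      rw [div_le_iff₀ hδ0]; exact hcard
    linarith
  · intro x hx
    obtain ⟨k, hk, rfl⟩ := Finset.mem_image.1 hx
    exact (ht k hk).1
  · intro x hx y hy hxy
    obtain ⟨k, hk, rfl⟩ := Finset.mem_image.1 hx
    obtain ⟨l, hl, rfl⟩ := Finset.mem_image.1 hy
    rcases lt_trichotomy k l with h1 | h1 | h1
    · have := hsep k hk l hl h1
      rw [abs_sub_comm]
      exact this.trans (le_abs_self _)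
    · rw [h1] at hxy; exact absurd rfl hxy
    · have := hsep l hl k hk h1
      exact this.trans (le_abs_self _)

end H855R2.SF
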