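import Mathlib
import Pool.Agent.H855R2.SF.Cor
import Pool.Agent.H855R2.SF.Data

/-!
General equivalences for a family `AFam`, in the form used in the final statements.
-/

open Complex Filter Topology Set

namespace H855R2.SF

variable {ι : Type*} {m : ℝ} {L : ι → ℂ → ℂ} {Q : ι → ℝ → ℝ}

theorem absorb {B a ε : ℝ} (hε : 0 < ε) : ∃ C0 : ℝ, 1 ≤ C0 ∧ ∀ C : ℝ, C0 ≤ C →
    B * C ^ (a + ε / 2) ≤ C ^ (a + ε) := by
  have h := (tendsto_rpow_atTop (show 0 < ε / 2 by positivity)).eventually_ge_atTop B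
  obtain ⟨C1, hC1⟩ := eventually_atTop.1 h
  refine ⟨max 1 C1, le_max_left _ _, fun C hC => ?_⟩
  have h1 : 1 ≤ C := (le_max_left _ _).trans hC
  have h2 := hC1 C ((le_max_right _ _).trans hC)
  calc B * C ^ (a + ε / 2) ≤ C ^ (ε / 2) * C ^ (a + ε / 2) :=
        mul_le_mul_of_nonneg_right h2 (by positivity)
    _ = C ^ (a + ε) := by rw [← Real.rpow_add (by linarith)]; congr 1; ring

/-- small values in every interval of length `2π/(D log Q)` -/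
theorem ZO_of_gap (H : AFam m L Q) {κ : ℝ} (hκ0 : 0 ≤ κ) (hκ1 : κ < 1 / 4)
    (hg : ∀ D : ℝ, 0 < D → D < 1 - 4 * κ → ∀ ε : ℝ, 0 < ε → ∃ Q0 : ℝ, ∀ i (T : ℝ), Q0 ≤ Q i T →
      ∃ t : ℝ, T ≤ t ∧ t ≤ T + 2 * Real.pi / (D * Real.log (Q i T)) ∧
        ‖L i ⟨1 / 2, t⟩‖ ≤ Q i T ^ (κ + ε)) : ZO L Q κ := by
  have hD : 0 < 1 - 4 * κ := by linarith
  have hG : Gap L Q (1 / (1 - 4 * κ)) κ := by
    intro θ' hθ' ε hε
    have hθ'0 : 0 < θ' := lt_trans (by positivity) hθ'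
    have h1 : 1 / θ' < 1 - 4 * κ := by
      rw [div_lt_iff₀ hθ'0]
      rw [div_lt_iff₀ hD] at hθ'
      linarith
    obtain ⟨Q0, hQ0⟩ := hg (1 / θ') (by positivity) h1 ε hε
    rw [ev_FF]
    refine ⟨max Q0 2, fun i T hT => ?_⟩
    obtain ⟨t, ht1, ht2, ht3⟩ := hQ0 i T ((le_max_left _ _).trans hT)
    have h2 : 2 ≤ Q i T := (le_max_right _ _).trans hT
    refine ⟨t, ht1, ht2.trans (le_of_eq ?_), ht3⟩
    have h3 : 0 < Real.log (Q i T) := Real.log_pos (by linarith)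
    simp only
    field_simp
  have h := dens_main H (by positivity) hκ0 (gap_dens H (by positivity) hκ0 hG)
  have e : (1 / (1 - 4 * κ) - 1) / (4 * (1 / (1 - 4 * κ))) = κ := by
    field_simp
    ring
  rw [e, max_self] at h
  exact h

/-- a single `D`: exponent `max κ ((1-D)/4)` -/
theorem ZO_of_gap_one (H : AFam m L Q) {κ D : ℝ} (hκ0 : 0 ≤ κ) (hD : 0 < D)
    (hg : ∀ ε : ℝ, 0 < ε → ∃ Q0 : ℝ, ∀ i (T : ℝ), Q0 ≤ Q i T →
      ∃ t : ℝ, T ≤ t ∧ t ≤ T + 2 * Real.pi / (D * Real.log (Q i T)) ∧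
        ‖L i ⟨1 / 2, t⟩‖ ≤ Q i T ^ (κ + ε)) : ZO L Q (max κ ((1 - D) / 4)) := by
  have hpi := Real.pi_pos
  have hG : Gap L Q (1 / D) κ := by
    intro θ' hθ' ε hε
    have hθ'0 : 0 < θ' := lt_trans (by positivity) hθ'
    have h1 : 1 / D ≤ θ' := hθ'.le
    obtain ⟨Q0, hQ0⟩ := hg ε hε
    rw [ev_FF]
    refine ⟨max Q0 2, fun i T hT => ?_⟩
    obtain ⟨t, ht1, ht2, ht3⟩ := hQ0 i T ((le_max_left _ _).trans hT)
    have h2 : 2 ≤ Q i T := (le_max_right _ _).trans hT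
    refine ⟨t, ht1, ht2.trans ?_, ht3⟩
    have h3 : 0 < Real.log (Q i T) := Real.log_pos (by linarith)
    simp only
    have h4 : 2 * Real.pi / (D * Real.log (Q i T)) = 2 * Real.pi * (1 / D) / Real.log (Q i T) := by
      field_simp
    rw [h4]
    gcongr
  have h := dens_main H (by positivity) hκ0 (gap_dens H (by positivity) hκ0 hG)
  have e : (1 / D - 1) / (4 * (1 / D)) = (1 - D) / 4 := by
    field_simp
  rw [e] at h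
  exact h

theorem gap_of_ZO (H : AFam m L Q) {κ : ℝ} (hZ : ZO L Q κ) (ε : ℝ) (hε : 0 < ε) :
    ∃ Q0 : ℝ, ∀ i (T : ℝ), Q0 ≤ Q i T → ‖L i ⟨1 / 2, T⟩‖ ≤ Q i T ^ (κ + ε) := by
  obtain ⟨B, hB⟩ := hZ (ε / 2) (by positivity)
  obtain ⟨C0, _, hC0⟩ := absorb (B := B) (a := κ) hε
  exact ⟨C0, fun i T hT => (hB i T).trans (hC0 _ hT)⟩

theorem window_of_ZO (H : AFam m L Q) {κ : ℝ} (hκ0 : 0 ≤ κ) (hZ : ZO L Q κ) (ε : ℝ) (hε : 0 < ε)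
    (h : ℝ) (hh : 0 < h) : ∃ Q0 : ℝ, ∀ i (T : ℝ), Q0 ≤ Q i T → ∀ t : ℝ, T ≤ t → t ≤ T + h →
      ‖L i ⟨1 / 2, t⟩‖ ≤ Q i T ^ (κ + ε) := by
  obtain ⟨B, hB⟩ := hZ (ε / 2) (by positivity)
  obtain ⟨C0, _, hC0⟩ := absorb (B := |B| * ((1 + h) ^ m) ^ (κ + ε / 2)) (a := κ) hε
  refine ⟨C0, fun i T hT t h1 h2 => ?_⟩
  refine le_trans ?_ (hC0 _ hT)
  have e : t = T + (t - T) := by ring
  have hq : Q i t ≤ (1 + h) ^ m * Q i T := by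
    have h3 := H.Qs i T (t - T)
    rw [← e] at h3
    refine h3.trans ?_
    apply mul_le_mul_of_nonneg_right _ (by linarith [H.Q1 i T])
    apply Real.rpow_le_rpow (by positivity) _ H.m0
    rw [abs_of_nonneg (by linarith)]
    linarith
  have hQt : 0 ≤ Q i t := by linarith [H.Q1 i t]
  have hQT : 0 ≤ Q i T := by linarith [H.Q1 i T]
  calc ‖L i ⟨1 / 2, t⟩‖ ≤ B * Q i t ^ (κ + ε / 2) := hB i t
    _ ≤ |B| * ((1 + h) ^ m * Q i T) ^ (κ + ε / 2) := by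
        apply mul_le_mul (le_abs_self B) _ (by positivity) (abs_nonneg B)
        exact Real.rpow_le_rpow hQt hq (by positivity)
    _ = _ := by rw [Real.mul_rpow (by positivity) hQT]; ring

theorem ZO_of_meas (H : AFam m L Q) {κ : ℝ} (hκ0 : 0 ≤ κ) {ρ : ℝ} (hρ : 0 < ρ)
    (hm : ∀ ε : ℝ, 0 < ε → ∀ h : ℝ, 0 < h → ∃ Q0 : ℝ, ∀ i (T : ℝ), Q0 ≤ Q i T →
      ENNReal.ofReal (ρ * h) ≤ MeasureTheory.volume
        {t : ℝ | T ≤ t ∧ t ≤ T + h ∧ ‖L i ⟨1 / 2, t⟩‖ ≤ Q i T ^ (κ + ε)}) : ZO L Q κ := by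
  have h1 : Dens L Q 1 κ := by
    apply meas_dens hρ _ one_pos
    intro ε hε h hh
    rw [ev_FF]
    exact hm ε hε h hh
  have h2 := dens_main H one_pos hκ0 h1
  have e : max κ ((1 - 1) / (4 * 1)) = κ := by
    rw [max_eq_left]; norm_num; exact hκ0
  rw [e] at h2
  exact h2

theorem meas_of_ZO (H : AFam m L Q) {κ : ℝ} (hκ0 : 0 ≤ κ) (hZ : ZO L Q κ) (ε : ℝ) (hε : 0 < ε)
    (h : ℝ) (hh : 0 < h) : ∃ Q0 : ℝ, ∀ i (T : ℝ), Q0 ≤ Q i T →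
      ENNReal.ofReal (1 * h) ≤ MeasureTheory.volume
        {t : ℝ | T ≤ t ∧ t ≤ T + h ∧ ‖L i ⟨1 / 2, t⟩‖ ≤ Q i T ^ (κ + ε)} := by
  obtain ⟨Q0, hQ0⟩ := window_of_ZO H hκ0 hZ ε hε h hh
  refine ⟨Q0, fun i T hT => ?_⟩
  have hsub : Set.Icc T (T + h) ⊆
      {t : ℝ | T ≤ t ∧ t ≤ T + h ∧ ‖L i ⟨1 / 2, t⟩‖ ≤ Q i T ^ (κ + ε)} :=
    fun t ht => ⟨ht.1, ht.2, hQ0 i T hT t ht.1 ht.2⟩
  refine le_trans (le_of_eq ?_) (MeasureTheory.measure_mono hsub)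
  rw [Real.volume_Icc]
  congr 1
  ring

end H855R2.SF
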